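import Pool.Agent.H98.SLN.Targets

set_option autoImplicit false

open MeasureTheory ProbabilityTheory Filter Topology
open scoped ENNReal
open Pool.Agent.H95 Pool.Agent.H95.Cop
open Pool.Agent.H55.CG (pz VV Mo)
open Pool.Agent.H98.CE (pc WB HK OBJ)
open Pool.Agent.H96.Cop (ex pk Wn chargeLaw)
open Pool.Agent.H99.CE (NX)

namespace Pool.Agent.H98.SLN

theorem pf_INR : T_INR := by
  intro ν _ B f Ψ hfm hf hΨ
  have hmp := measurePreserving_splice ν B
  have hm : Measurable (fun x : ℕ → ℝ => Ψ (f x, shift B x)) :=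
    hΨ.comp (hfm.prodMk (measurable_shift B))
  have h0 : ∫⁻ q, (fun x => Ψ (f x, shift B x)) (splice B q) ∂((iid ν).prod (iid ν)) =
      ∫⁻ x, (fun x => Ψ (f x, shift B x)) x ∂(iid ν) := hmp.lintegral_comp hm
  simp only at h0
  have h2 : ∀ q : (ℕ → ℝ) × (ℕ → ℝ),
      Ψ (f (splice B q), shift B (splice B q)) = Ψ (f q.1, q.2) := by
    intro q
    rw [hf.splice_eq, shift_splice]
  simp only [h2] at h0
  have hm2 : Measurable (fun q : (ℕ → ℝ) × (ℕ → ℝ) => Ψ (f q.1, q.2)) :=
    hΨ.comp ((hfm.comp measurable_fst).prodMk measurable_snd)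
  rw [← h0, lintegral_prod _ hm2.aemeasurable]

/-- one charge -/
lemma lint_exp_u (ν : Measure ℝ) [IsProbabilityMeasure ν]
    (hexp : ∀ t : ℝ, Integrable (fun z => Real.exp (t * z)) ν) (u : ℝ) (n : ℕ) :
    ∫⁻ x : ℕ → ℝ, ENNReal.ofReal (Real.exp (u * H x 0 n)) ∂(iid ν) =
      ENNReal.ofReal (Mo ν u ^ n) := by
  have hmeas : ∀ m : ℕ, Measurable (fun x : ℕ → ℝ => ENNReal.ofReal (Real.exp (u * H x 0 m))) := by
    intro m
    apply ENNReal.measurable_ofReal.comp
    apply Real.measurable_exp.comp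
    apply Measurable.const_mul
    unfold H
    apply Finset.measurable_sum
    intro i _
    exact measurable_pi_apply i
  have hMo : 0 ≤ Mo ν u := integral_nonneg fun z => (Real.exp_pos _).le
  induction n with
  | zero =>
    have : ∀ x : ℕ → ℝ, ENNReal.ofReal (Real.exp (u * H x 0 0)) = 1 := by
      intro x; unfold H; simp
    simp [this]
  | succ n ih =>
    have h1 : ∀ x : ℕ → ℝ, ENNReal.ofReal (Real.exp (u * H x 0 (n + 1))) =
        (fun x : ℕ → ℝ => ENNReal.ofReal (Real.exp (u * H x 0 1))) x *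
        (fun x : ℕ → ℝ => ENNReal.ofReal (Real.exp (u * H x 0 n))) (shift 1 x) := by
      intro x
      simp only
      rw [← ENNReal.ofReal_mul (Real.exp_pos _).le, ← Real.exp_add, ← mul_add, H_shift, zero_add,
        H_add x (Nat.zero_le 1) (by omega)]
    simp_rw [h1]
    rw [Pool.Agent.H96.Cop.lint_mul_shift ν
      (f := fun x : ℕ → ℝ => ENNReal.ofReal (Real.exp (u * H x 0 1)))
      (g := fun x : ℕ → ℝ => ENNReal.ofReal (Real.exp (u * H x 0 n))) (t := 1) ?_ (hmeas 1)
      (hmeas n), ih, pow_succ, mul_comm, ENNReal.ofReal_mul (pow_nonneg hMo n)]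
    · congr 1
      have h2 : ∀ x : ℕ → ℝ, ENNReal.ofReal (Real.exp (u * H x 0 1)) =
          (fun z => ENNReal.ofReal (Real.exp (u * z))) (Function.eval 0 x) := by
        intro x
        unfold H
        simp
      have h3 : ∫⁻ x, (fun z => ENNReal.ofReal (Real.exp (u * z))) (Function.eval 0 x) ∂(iid ν) =
          ∫⁻ z, (fun z => ENNReal.ofReal (Real.exp (u * z))) z ∂ν :=
        (measurePreserving_eval_infinitePi (fun _ : ℕ => ν) 0).lintegral_comp
          (ENNReal.measurable_ofReal.comp (Real.measurable_exp.comp (measurable_const_mul u)))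
      rw [lintegral_congr h2, h3]
      simp only
      rw [← ofReal_integral_eq_lintegral_ofReal (hexp u)
        (Eventually.of_forall fun z => (Real.exp_pos _).le)]
      rfl
    · intro x x' h
      simp only
      congr 3
      unfold H
      apply Finset.sum_congr rfl
      intro i hi
      rw [Finset.mem_Ico] at hi
      exact h i hi.2

theorem pf_EXM : T_EXM := by
  intro ν _ hexp θ n hθ
  refine ⟨?_, fun u => lint_exp_u ν hexp u n⟩
  rw [← lint_exp_u ν hexp θ n]
  apply lintegral_congr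
  intro x
  unfold ex
  rw [ENNReal.ofReal_rpow_of_pos (Real.exp_pos _), ← Real.exp_mul, mul_comm]

theorem pf_HOL (hEXM : T_EXM) : T_HOL := by
  intro ν _ hexp θ n F hθ hθ1 hF
  have hH : Measurable (fun x : ℕ → ℝ => H x 0 n) := by
    unfold H
    apply Finset.measurable_sum
    intro i _
    exact measurable_pi_apply i
  set a : (ℕ → ℝ) → ℝ≥0∞ := fun x => ENNReal.ofReal (Real.exp (-(1 - θ) / 2 * H x 0 n)) with ha
  set b : (ℕ → ℝ) → ℝ≥0∞ := fun x => ENNReal.ofReal (Real.exp (θ / 2 * H x 0 n)) with hb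
  have ham : Measurable a := ENNReal.measurable_ofReal.comp
    (Real.measurable_exp.comp (hH.const_mul _))
  have hbm : Measurable b := ENNReal.measurable_ofReal.comp
    (Real.measurable_exp.comp (hH.const_mul _))
  have hpt : ∀ x, F x ^ θ = (F x * a x) ^ θ * b x ^ (1 - θ) := by
    intro x
    rw [ENNReal.mul_rpow_of_nonneg _ _ hθ.le, mul_assoc]
    have h1 : a x ^ θ * b x ^ (1 - θ) = 1 := by
      simp only [ha, hb]
      rw [ENNReal.ofReal_rpow_of_pos (Real.exp_pos _), ENNReal.ofReal_rpow_of_pos (Real.exp_pos _),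
        ← ENNReal.ofReal_mul (Real.rpow_nonneg (Real.exp_pos _).le _), ← Real.exp_mul,
        ← Real.exp_mul, ← Real.exp_add]
      have : -(1 - θ) / 2 * H x 0 n * θ + θ / 2 * H x 0 n * (1 - θ) = 0 := by ring
      rw [this, Real.exp_zero, ENNReal.ofReal_one]
    rw [h1, mul_one]
  have h1θ : 0 < 1 - θ := by linarith
  have hpq : Real.HolderConjugate (1 / θ) (1 / (1 - θ)) := by
    rw [Real.holderConjugate_iff]
    constructor
    · rw [lt_div_iff₀ hθ]; linarith
    · rw [one_div, one_div, inv_inv, inv_inv]; ring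
  have hHo := ENNReal.lintegral_mul_le_Lp_mul_Lq (iid ν) hpq
    (f := fun x => (F x * a x) ^ θ) (g := fun x => b x ^ (1 - θ))
    ((hF.mul ham).pow_const θ).aemeasurable (hbm.pow_const _).aemeasurable
  have e1 : ∫⁻ x, F x ^ θ ∂(iid ν) = ∫⁻ x, ((fun x => (F x * a x) ^ θ) * fun x => b x ^ (1 - θ)) x ∂(iid ν) := by
    apply lintegral_congr
    intro x
    rw [hpt x]
    rfl
  rw [e1]
  refine hHo.trans (le_of_eq ?_)
  have e2 : ∀ x, ((F x * a x) ^ θ) ^ (1 / θ) = F x * a x := by
    intro x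
    rw [← ENNReal.rpow_mul, mul_one_div_cancel hθ.ne', ENNReal.rpow_one]
  have e3 : ∀ x, (b x ^ (1 - θ)) ^ (1 / (1 - θ)) = b x := by
    intro x
    rw [← ENNReal.rpow_mul, mul_one_div_cancel h1θ.ne', ENNReal.rpow_one]
  simp only [e2, e3, one_div_one_div]
  congr 2
  exact (hEXM ν hexp θ n hθ.le).2 (θ / 2)

end Pool.Agent.H98.SLN
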