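import Pool.Agent.H98.SLN.Targets

set_option autoImplicit false

open MeasureTheory ProbabilityTheory Filter Topology
open scoped ENNReal
open Pool.Agent.H95 Pool.Agent.H95.Cop
open Pool.Agent.H55.CG (pz VV Mo)
open Pool.Agent.H98.CE (pc WB HK OBJ)
open Pool.Agent.H96.Cop (ex pk Wn chargeLaw)
open Pool.Agent.H99.CE (NX PF)

namespace Pool.Agent.H98.SLN

/-- the real inequality of ULM -/
lemma ulm_real (ρ δ κ θ V T M : ℝ) (k b : ℕ) (hρ : 0 < ρ) (hθ : 0 < θ) (hM : 0 ≤ M)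
    (hV : V ≤ Real.exp (64 * δ * (b + 1)) * T) (hT : 0 ≤ T)
    (hdk : (ρ ^ k * Real.exp (64 * δ)) ^ θ * (M ^ k) ^ (1 - θ) ≤ Real.exp (-κ)) :
    (max (ρ ^ ((b + 1) * k) * Real.exp 2 * V) 0) ^ θ * (M ^ ((b + 1) * k)) ^ (1 - θ) ≤
      (Real.exp 2 * T) ^ θ * Real.exp (-(κ * (b + 1))) := by
  have e1 : ρ ^ ((b + 1) * k) = (ρ ^ k) ^ (b + 1) := by rw [mul_comm, pow_mul]
  have e2 : Real.exp (64 * δ * (b + 1)) = Real.exp (64 * δ) ^ (b + 1) := by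
    rw [← Real.exp_nat_mul]
    congr 1
    push_cast
    ring
  have e3 : M ^ ((b + 1) * k) = (M ^ k) ^ (b + 1) := by rw [mul_comm, pow_mul]
  have e4 : Real.exp (-(κ * (b + 1))) = Real.exp (-κ) ^ (b + 1) := by
    rw [← Real.exp_nat_mul]
    congr 1
    push_cast
    ring
  have hP0 : 0 ≤ ρ ^ k * Real.exp (64 * δ) := by positivity
  have hA0 : 0 ≤ Real.exp 2 * T := by positivity
  have hMk : 0 ≤ M ^ k := pow_nonneg hM k
  have h1 : max (ρ ^ ((b + 1) * k) * Real.exp 2 * V) 0 ≤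
      (Real.exp 2 * T) * (ρ ^ k * Real.exp (64 * δ)) ^ (b + 1) := by
    apply max_le
    · calc ρ ^ ((b + 1) * k) * Real.exp 2 * V ≤
          ρ ^ ((b + 1) * k) * Real.exp 2 * (Real.exp (64 * δ * (b + 1)) * T) := by
            apply mul_le_mul_of_nonneg_left hV (by positivity)
        _ = _ := by rw [e1, e2, mul_pow]; ring
    · positivity
  calc (max (ρ ^ ((b + 1) * k) * Real.exp 2 * V) 0) ^ θ * (M ^ ((b + 1) * k)) ^ (1 - θ)
      ≤ ((Real.exp 2 * T) * (ρ ^ k * Real.exp (64 * δ)) ^ (b + 1)) ^ θ *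
        ((M ^ k) ^ (b + 1)) ^ (1 - θ) := by
        rw [e3]
        apply mul_le_mul_of_nonneg_right _ (Real.rpow_nonneg (pow_nonneg hMk _) _)
        exact Real.rpow_le_rpow (le_max_right _ _) h1 hθ.le
    _ = (Real.exp 2 * T) ^ θ * ((ρ ^ k * Real.exp (64 * δ)) ^ θ * (M ^ k) ^ (1 - θ)) ^ (b + 1) := by
        rw [Real.mul_rpow hA0 (pow_nonneg hP0 _), ← Real.rpow_pow_comm hP0, ← Real.rpow_pow_comm hMk,
          mul_pow]
        ring
    _ ≤ (Real.exp 2 * T) ^ θ * Real.exp (-κ) ^ (b + 1) := by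
        apply mul_le_mul_of_nonneg_left _ (Real.rpow_nonneg hA0 _)
        apply pow_le_pow_left₀ _ hdk
        exact mul_nonneg (Real.rpow_nonneg hP0 _) (Real.rpow_nonneg hMk _)
    _ = _ := by rw [e4]

theorem pf_ULM (hHOL : T_HOL) (hUTX : T_UTX) (hUSB : T_USB) (hTLQ : T_TLQ)
    (hPFM : Pool.Agent.H99.CE.T_PFM) : T_ULM := by
  intro K α c δ k q hRG ν θ ρ τ κ hUM p q' b
  obtain ⟨hk1, -, hTS, -, -⟩ := hTLQ K α c δ k q hRG
  have := hUM.prob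
  have hmeas : Measurable (NX (Pool.Agent.H99.CE.w0 K k k) k p q' b) :=
    ((hPFM.1 _ ((hPFM.2 K).2 k k)).2.2 k p q' b).1
  have h1 := hHOL ν hUM.exp θ ((b + 1) * k) (NX (Pool.Agent.H99.CE.w0 K k k) k p q' b) hUM.θ0
    hUM.θ1 hmeas
  have h2 := hUTX K ν hUM.exp k θ ρ τ hk1 hUM.ρ0 hUM.τ0 hUM.τk hUM.mn hUM.mp p q' b
  have h3 := hUSB K α c δ k q hRG τ hUM.τ0 hUM.τk b
  have hT : 0 ≤ 4 * (k : ℝ) ^ 2 / TS K k := by positivity
  have hMo : 0 ≤ Mo ν (θ / 2) := integral_nonneg fun z => (Real.exp_pos _).le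
  have hθ0 := hUM.θ0
  have hθ1 := hUM.θ1
  have h4 := ulm_real ρ δ κ θ (VB K k τ b) _ _ k b hUM.ρ0 hUM.θ0 hMo h3 hT hUM.dk
  calc ∫⁻ x, NX (Pool.Agent.H99.CE.w0 K k k) k p q' b x ^ θ ∂(iid ν)
      ≤ _ := h1
    _ ≤ (ENNReal.ofReal (ρ ^ ((b + 1) * k) * Real.exp 2 * VB K k τ b)) ^ θ *
        ENNReal.ofReal (Mo ν (θ / 2) ^ ((b + 1) * k)) ^ (1 - θ) := by
        gcongr
    _ = ENNReal.ofReal ((max (ρ ^ ((b + 1) * k) * Real.exp 2 * VB K k τ b) 0) ^ θ *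
        (Mo ν (θ / 2) ^ ((b + 1) * k)) ^ (1 - θ)) := by
        rw [ENNReal.ofReal_mul (Real.rpow_nonneg (le_max_right _ _) _),
          ← ENNReal.ofReal_rpow_of_nonneg (le_max_right _ _) hθ0.le,
          ← ENNReal.ofReal_rpow_of_nonneg (pow_nonneg hMo _) (by linarith)]
        congr 2
        rcases le_total 0 (ρ ^ ((b + 1) * k) * Real.exp 2 * VB K k τ b) with h | h
        · rw [max_eq_left h]
        · rw [max_eq_right h, ENNReal.ofReal_of_nonpos h, ENNReal.ofReal_zero]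
    _ ≤ _ := ENNReal.ofReal_le_ofReal h4

end Pool.Agent.H98.SLN
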