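import Pool.Agent.H98.SLN.Targets

/-!
# The slope of the copolymer critical curve near `α = 1`: the final statement (helper98)
-/

set_option autoImplicit false

open MeasureTheory ProbabilityTheory Filter Topology
open Pool.Agent.H95 Pool.Agent.H95.Cop

namespace Pool.Agent.H98.SLN

/-- the two parts of the theorem from its four halves -/
theorem fin_of (hLWA : T_LWA) (hUPA : T_UPA) (hLWB : T_LWB) (hUPB : T_UPB) :
    (∃ c α₀ : ℝ, 0 < c ∧ α₀ < 1 ∧ ∀ α : ℝ, α₀ < α → α < 1 → ∀ K : PMF ℕ, K 0 = 0 →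
      ∀ cK : ℝ, 0 < cK →
      Tendsto (fun n : ℕ => (K n).toReal * (n : ℝ) ^ (1 + α)) atTop (𝓝 cK) →
      ∀ (μ : Measure ℝ) [IsProbabilityMeasure μ],
      (∀ t : ℝ, Integrable (fun z => Real.exp (t * z)) μ) → ∫ z, z ∂μ = 0 →
      ∫ z, z ^ 2 ∂μ = 1 →
      ∀ᶠ lam in 𝓝[>] (0 : ℝ),
        3 / 4 + c * (1 - α) ^ (1 / 4 : ℝ) ≤ criticalCurve K μ lam / lam ∧
        criticalCurve K μ lam / lam ≤ 3 / 4 + 70 * (1 - α) ^ (1 / 4 : ℝ)) ∧
    ∃ c : ℝ, 0 < c ∧ ∀ K : PMF ℕ, K 0 = 0 → ∀ cK : ℝ, 0 < cK →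
      Tendsto (fun n : ℕ => (K n).toReal * (n : ℝ) ^ 2) atTop (𝓝 cK) →
      ∀ (μ : Measure ℝ) [IsProbabilityMeasure μ],
      (∀ t : ℝ, Integrable (fun z => Real.exp (t * z)) μ) → ∫ z, z ∂μ = 0 →
      ∫ z, z ^ 2 ∂μ = 1 →
      (∀ᶠ lam in 𝓝[>] (0 : ℝ),
        3 / 4 + c * Real.log (1 / lam) ^ (-(1 / 4) : ℝ) ≤ criticalCurve K μ lam / lam ∧
        criticalCurve K μ lam / lam ≤ 3 / 4 + 70 * Real.log (1 / lam) ^ (-(1 / 4) : ℝ)) ∧
      Tendsto (fun lam => criticalCurve K μ lam / lam) (𝓝[>] 0) (𝓝 (3 / 4)) := by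
  constructor
  · obtain ⟨c, α0, hc, hα0, h1⟩ := hLWA
    obtain ⟨α1, hα1, h2⟩ := hUPA
    refine ⟨c, max α0 α1, hc, max_lt hα0 hα1, ?_⟩
    intro α hα hα' K hK0 cK hcK hK μ _ hexp hmean hvar
    filter_upwards [h1 α (lt_of_le_of_lt (le_max_left _ _) hα) hα' K hK0 cK hcK hK μ hexp hmean
      hvar, h2 α (lt_of_le_of_lt (le_max_right _ _) hα) hα' K hK0 cK hcK hK μ hexp hmean hvar]
      with lam g1 g2
    exact ⟨g1, g2⟩
  · obtain ⟨c, hc, h1⟩ := hLWB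
    refine ⟨c, hc, ?_⟩
    intro K hK0 cK hcK hK μ _ hexp hmean hvar
    have hK' : Tendsto (fun n : ℕ => (K n).toReal * (n : ℝ) ^ (1 + (1 : ℝ))) atTop (𝓝 cK) := by
      have hfun : (fun n : ℕ => (K n).toReal * (n : ℝ) ^ (1 + (1 : ℝ))) =
          fun n : ℕ => (K n).toReal * (n : ℝ) ^ 2 := by
        funext n
        have h2 : (1 : ℝ) + 1 = ((2 : ℕ) : ℝ) := by norm_num
        rw [h2, Real.rpow_natCast]
      rw [hfun]
      exact hK
    have hlo := h1 K hK0 cK hcK hK' μ hexp hmean hvar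
    have hup := hUPB K hK0 cK hcK hK' μ hexp hmean hvar
    constructor
    · filter_upwards [hlo, hup] with lam g1 g2
      exact ⟨g1, g2⟩
    · have hinv : Tendsto (fun lam : ℝ => 1 / lam) (𝓝[>] 0) atTop := by
        have h := tendsto_inv_nhdsGT_zero (𝕜 := ℝ)
        simpa [one_div] using h
      have hlog : Tendsto (fun lam : ℝ => Real.log (1 / lam)) (𝓝[>] 0) atTop :=
        Real.tendsto_log_atTop.comp hinv
      have hz : Tendsto (fun lam : ℝ => Real.log (1 / lam) ^ (-(1 / 4) : ℝ)) (𝓝[>] 0) (𝓝 0) :=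
        (tendsto_rpow_neg_atTop (by norm_num : (0 : ℝ) < 1 / 4)).comp hlog
      have ha : Tendsto (fun lam : ℝ => 3 / 4 + c * Real.log (1 / lam) ^ (-(1 / 4) : ℝ))
          (𝓝[>] 0) (𝓝 (3 / 4)) := by
        have h := (hz.const_mul c).const_add (3 / 4)
        simpa using h
      have hb : Tendsto (fun lam : ℝ => 3 / 4 + 70 * Real.log (1 / lam) ^ (-(1 / 4) : ℝ))
          (𝓝[>] 0) (𝓝 (3 / 4)) := by
        have h := (hz.const_mul 70).const_add (3 / 4)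
        simpa using h
      exact tendsto_of_tendsto_of_tendsto_of_le_of_le' ha hb hlo hup

end Pool.Agent.H98.SLN
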