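import Pool.Agent.H98.SLN.Defs
import Pool.Agent.H98.CE.Targets
import Pool.Agent.H99.CE.Targets

/-!
# The slope of the copolymer critical curve near `α = 1`: targets (helper98)

Every `T_X` is a proposition to be proved in a module of its own. See `Defs.lean`.
-/

set_option autoImplicit false

open MeasureTheory ProbabilityTheory Filter Topology
open scoped ENNReal
open Pool.Agent.H95 Pool.Agent.H95.Cop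
open Pool.Agent.H55.CG (pz VV Mo)
open Pool.Agent.H98.CE (pc WB HK OBJ)
open Pool.Agent.H96.Cop (ex pk Wn chargeLaw)
open Pool.Agent.H99.CE (NX)

namespace Pool.Agent.H98.SLN

/-! ## A. Renewal processes -/

/-- RID: renewal identity for a general kernel. -/
def T_RID : Prop := ∀ k : ℕ → ℝ, k 0 = 0 → ∀ m : ℕ,
  ∑ n ∈ Finset.range (m + 1), uu k n * (1 - ∑ i ∈ Finset.range (m + 1 - n), k i) = 1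

/-- WIN: the renewal mass of a window. -/
def T_WIN : Prop := ∀ k : ℕ → ℝ, k 0 = 0 → (∀ n, 0 ≤ k n) →
  (∀ N, ∑ n ∈ Finset.range N, k n ≤ 1) → ∀ A L : ℕ,
  ∑ n ∈ Finset.Ico A (A + L), uu k n ≤ ∑ n ∈ Finset.range L, uu k n

/-- UUP: the renewal mass. -/
def T_UUP : Prop := ∀ K : PMF ℕ, K 0 = 0 → (∀ L : ℕ, UU K L * TS K L ≤ 2 * L) ∧
  (∀ L L' : ℕ, L ≤ L' → TS K L ≤ TS K L') ∧ (∀ ℓ : ℕ, VV K ℓ ≤ ℓ * UU K ℓ) ∧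
  ∀ ℓ : ℕ, 1 ≤ ℓ → (ℓ : ℝ) ^ 2 ≤ 4 * TS K ℓ * VV K ℓ

/-- TLQ: tails. -/
def T_TLQ : Prop := ∀ (K : PMF ℕ) (α c δ : ℝ) (ℓ q : ℕ), RG K α c δ ℓ q →
  1 ≤ ℓ ∧ q ≤ ℓ ∧ 0 < TS K ℓ ∧ tailK K (q + 1) * ℓ ≤ 32 * Real.sqrt δ * TS K ℓ ∧
  tailK K (ℓ + 1) * ℓ ≤ 16 * δ * TS K ℓ

/-- HKR: the jump law on the scale of the cells. -/
def T_HKR : Prop := ∀ (K : PMF ℕ) (α c δ : ℝ) (ℓ q : ℕ), RG K α c δ ℓ q →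
  HK K ℓ α (δ / 64) ∧ δ / 64 ≤ VV K ℓ * (c / 2 / 2) * (ℓ : ℝ) ^ (-(1 + α)) ∧ 0 < VV K ℓ

/-- MAS: the mass of the paths with short excursions. -/
def T_MAS : Prop := ∀ (K : PMF ℕ) (α c δ : ℝ) (ℓ q : ℕ), RG K α c δ ℓ q → ∀ a b : ℕ, a + 1 ≤ b →
  2 ^ 9 * Real.sqrt δ * ((b : ℝ) + 1 - a) ≤ 1 → VV K ℓ / 8 ≤ MM K ℓ q a b ∧ 0 < MM K ℓ q a b

/-! ## B. Stretches with short excursions -/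

/-- UQB: basic properties. -/
def T_UQB : Prop := ∀ (K : PMF ℕ) (q : ℕ),
  (∀ n, 0 ≤ uq K q n ∧ uq K q n ≤ uu (kk K) n) ∧
  (∀ n (x : ℕ → ℝ) y, uq K q n = 0 → Sq K q x n y = 0) ∧
  (∀ (ν : Measure ℝ) n, uq K q n = 0 → mS K q ν n = 0) ∧
  (∀ n y, Measurable (fun x : ℕ → ℝ => Sq K q x n y) ∧
    DepLt (y + n) (fun x : ℕ → ℝ => Sq K q x n y)) ∧
  ∀ n (x : ℕ → ℝ) y t, Sq K q (shift t x) n y = Sq K q x n (y + t)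

/-- LCB: the function `lc`. -/
def T_LCB : Prop := ∀ y : ℝ, 0 ≤ lc y ∧ lc y ≤ y ^ 2 / 8 ∧ y ^ 2 / 8 - y ^ 4 / 192 ≤ lc y ∧
  (1 + Real.exp y) / 2 = Real.exp (y / 2 + lc y)

/-- JEN: Jensen for the paths with short excursions. -/
def T_JEN : Prop := ∀ (K : PMF ℕ) (q n : ℕ) (x : ℕ → ℝ) (y : ℕ), 0 < uq K q n →
  uq K q n * Real.exp (H x y (y + n) / 2 + Sq K q x n y / uq K q n) ≤ pz K x n y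

/-- PCJ: the same for cells. -/
def T_PCJ : Prop := ∀ (K : PMF ℕ) (ℓ q : ℕ) (x : ℕ → ℝ) (a b : ℕ), 1 ≤ ℓ → a < b →
  0 < MM K ℓ q a b → MM K ℓ q a b / VV K ℓ * Real.exp (YY K ℓ q x a b) ≤ pc K ℓ x a b

/-- INR: independence. -/
def T_INR : Prop := ∀ (ν : Measure ℝ) [IsProbabilityMeasure ν] (B : ℕ) (f : (ℕ → ℝ) → ℝ)
  (Ψ : ℝ × (ℕ → ℝ) → ℝ≥0∞), Measurable f → DepLt B f → Measurable Ψ →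
  ∫⁻ x, Ψ (f x, shift B x) ∂(iid ν) = ∫⁻ x, (∫⁻ y, Ψ (f x, y) ∂(iid ν)) ∂(iid ν)

/-- VAR: the variance of `Sq`. -/
def T_VAR : Prop := ∀ (K : PMF ℕ) (q : ℕ) (ν : Measure ℝ) [IsProbabilityMeasure ν] (Bc : ℝ),
  0 ≤ Bc → (∀ j : ℕ, 1 ≤ j → j ≤ q →
    Integrable (fun x : ℕ → ℝ => lc (H x 0 j)) (iid ν) ∧
    Integrable (fun x : ℕ → ℝ => lc (H x 0 j) ^ 2) (iid ν) ∧
    ∫ x : ℕ → ℝ, (lc (H x 0 j) - ∫ x' : ℕ → ℝ, lc (H x' 0 j) ∂(iid ν)) ^ 2 ∂(iid ν) ≤ Bc * j) →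
  ∀ (n y : ℕ) (c : ℝ),
    ∫⁻ x : ℕ → ℝ, ENNReal.ofReal ((Sq K q x n y - mS K q ν n + c * uq K q n) ^ 2) ∂(iid ν) ≤
      ENNReal.ofReal (uq K q n ^ 2 * (c ^ 2 + Bc * n))

/-- MSL: the mean of `Sq`. -/
def T_MSL : Prop := ∀ (K : PMF ℕ) (q : ℕ) (ν : Measure ℝ) (b0 : ℝ),
  (∀ j : ℕ, 1 ≤ j → j ≤ q → b0 * j ≤ ∫ x : ℕ → ℝ, lc (H x 0 j) ∂(iid ν)) →
  ∀ n : ℕ, uq K q n * (n * b0) ≤ mS K q ν n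

/-- FOU: moments of sums. -/
def T_FOU : Prop := ∀ (ν : Measure ℝ) [IsProbabilityMeasure ν], Integrable (fun z => z ^ 4) ν →
  ∀ k : ℕ, Integrable (fun x : ℕ → ℝ => H x 0 k ^ 4) (iid ν) ∧
  Integrable (fun x : ℕ → ℝ => H x 0 k ^ 2) (iid ν) ∧
  k * (∫ z, z ^ 2 ∂ν) ≤ ∫ x : ℕ → ℝ, H x 0 k ^ 2 ∂(iid ν) ∧
  ∫ x : ℕ → ℝ, H x 0 k ^ 2 ∂(iid ν) ≤ k * (∫ z, z ^ 2 ∂ν) + (k : ℝ) ^ 2 * (∫ z, z ∂ν) ^ 2 ∧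
  ∫ x : ℕ → ℝ, H x 0 k ^ 4 ∂(iid ν) ≤ 128 * k * (∫ z, z ^ 4 ∂ν) +
    24 * (k : ℝ) ^ 2 * (∫ z, z ^ 2 ∂ν) ^ 2 + 8 * (k : ℝ) ^ 4 * (∫ z, z ∂ν) ^ 4

/-- LCM: moments of `lc`. -/
def T_LCM : Prop := ∀ (ν : Measure ℝ) [IsProbabilityMeasure ν], Integrable (fun z => z ^ 4) ν →
  ∀ q j : ℕ, 1 ≤ j → j ≤ q →
  Integrable (fun x : ℕ → ℝ => lc (H x 0 j)) (iid ν) ∧
  Integrable (fun x : ℕ → ℝ => lc (H x 0 j) ^ 2) (iid ν) ∧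
  ((∫ z, z ^ 2 ∂ν) / 8 - B4 ν q / 192) * j ≤ ∫ x : ℕ → ℝ, lc (H x 0 j) ∂(iid ν) ∧
  ∫ x : ℕ → ℝ, (lc (H x 0 j) - ∫ x' : ℕ → ℝ, lc (H x' 0 j) ∂(iid ν)) ^ 2 ∂(iid ν) ≤
    B4 ν q / 64 * j

/-- YGD: the exponent of the paths is not much smaller than the typical one. -/
def T_YGD : Prop := ∀ (K : PMF ℕ) (α c δ : ℝ) (ℓ q : ℕ), RG K α c δ ℓ q →
  ∀ (ν : Measure ℝ) [IsProbabilityMeasure ν], Integrable (fun z => z ^ 4) ν → ∀ ε : ℝ,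
  ℓ * |∫ z, z ∂ν| ≤ 4 → |ℓ * (∫ z, z ^ 2 ∂ν) - 4| ≤ ε → ℓ * (∫ z, z ^ 4 ∂ν) ≤ ε →
  ∀ a b : ℕ, a + 1 ≤ b → 2 ^ 9 * Real.sqrt δ * ((b : ℝ) + 1 - a) ≤ 1 →
  ((b : ℝ) + 1 - a) * ε ≤ 1 / 8 →
  (iid ν).real {x : ℕ → ℝ | YY K ℓ q x a b < cD ℓ x a b - 60} ≤ 1 / 8

/-- CMT: change of measure. -/
def T_CMT : Prop := ∀ (ν : Measure ℝ) [IsProbabilityMeasure ν],
  (∀ t : ℝ, Integrable (fun z => Real.exp (t * z)) ν) → ∀ s : ℝ,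
  IsProbabilityMeasure (ν.tilted fun z => s * z) ∧
  Integrable (fun z => z ^ 4) (ν.tilted fun z => s * z) ∧
  ∀ (n : ℕ) (g : (ℕ → ℝ) → ℝ≥0∞), Measurable g → DepLt n g →
  ∫⁻ x, ENNReal.ofReal (Real.exp (s * H x 0 n)) * g x ∂(iid ν) =
    ENNReal.ofReal (Mo ν s ^ n) * ∫⁻ x, g x ∂(iid (ν.tilted fun z => s * z))

/-! ## C. The functional of a box -/

/-- W1D: deterministic properties. -/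
def T_W1D : Prop := ∀ (K : PMF ℕ) (α c δ : ℝ) (ℓ q : ℕ), RG K α c δ ℓ q →
  ∀ (n d0 d1 : ℕ) (β : ℝ), 2 ≤ d0 → 2 ^ 9 * Real.sqrt δ * d1 ≤ 1 →
  Measurable (w1 K ℓ q n d0 d1 β) ∧ Measurable (l1 K ℓ q n d0 d1 β) ∧
  DepLt (n * ℓ) (w1 K ℓ q n d0 d1 β) ∧ DepLt (n * ℓ) (l1 K ℓ q n d0 d1 β) ∧
  ∀ x : ℕ → ℝ, 0 ≤ w1 K ℓ q n d0 d1 β x ∧ w1 K ℓ q n d0 d1 β x ≤ WB K ℓ n x ∧
    (l1 K ℓ q n d0 d1 β x = 0 → w1 K ℓ q n d0 d1 β x = 0) ∧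
    (l1 K ℓ q n d0 d1 β x ≠ 0 →
      Real.exp (β * l1 K ℓ q n d0 d1 β x) ≤ w1 K ℓ q n d0 d1 β x) ∧
    l1 K ℓ q n d0 d1 β x ≤ 1

/-- EXQ: exponential moments of pairs. -/
def T_EXQ : Prop := ∀ (ν : Measure ℝ) [IsProbabilityMeasure ν],
  (∀ t : ℝ, Integrable (fun z => Real.exp (t * z)) ν) → ∀ ℓ a b : ℕ, a ≤ b →
  (∀ u : ℝ, 0 < AA ν ℓ u ∧
    Integrable (fun x : ℕ → ℝ => Real.exp (u * cD ℓ x a b)) (iid ν) ∧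
    ∫ x : ℕ → ℝ, Real.exp (u * cD ℓ x a b) ∂(iid ν) = AA ν ℓ u ^ (b + 1 - a)) ∧
  ∀ γ s r : ℝ, 0 < r → r ≤ 1 → AA ν ℓ (γ - s) ≤ r * AA ν ℓ γ → AA ν ℓ s ≤ r →
  ∀ a' b' : ℕ, a' ≤ b' →
    Integrable (fun x : ℕ → ℝ =>
      Real.exp (γ * cD ℓ x a b + s * (cD ℓ x a' b' - cD ℓ x a b))) (iid ν) ∧
    ∫ x : ℕ → ℝ, Real.exp (γ * cD ℓ x a b + s * (cD ℓ x a' b' - cD ℓ x a b)) ∂(iid ν) ≤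
      AA ν ℓ γ ^ (b + 1 - a) * r ^ sd a b a' b'

/-- SUR: the sum over the pairs. -/
def T_SUR : Prop := ∀ (r : ℝ) (n a b : ℕ), 0 < r → r < 1 → a ≤ b → b < n →
  ∑ p ∈ (Finset.range n ×ˢ Finset.range n).filter (fun p => p.1 ≤ p.2), r ^ sd a b p.1 p.2 ≤
    4 / (1 - r) ^ 2 + n * (r ^ (b + 1 - a) / (1 - r))

/-- SHR: the share of a pair. -/
def T_SHR : Prop := ∀ {ι : Type} (P G : Finset ι) (p : ι → ℝ) (γ s C : ℝ), G ⊆ P →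
  (∀ i ∈ P, 0 < p i) → 0 < γ → 0 < C →
  ∑ i ∈ G, p i ^ γ * (2 / C - (∑ j ∈ P, (p j / p i) ^ s) / C ^ 2) ≤ (∑ i ∈ G, p i) ^ γ

/-- BD1: the first kind of bad pairs is rare. -/
def T_BD1 : Prop := ∀ (K : PMF ℕ) (α c δ : ℝ) (ℓ q N : ℕ) (ν : Measure ℝ), RG K α c δ ℓ q →
  1 ≤ N → MC ν ℓ N (1 / (1 + α)) → ∀ a b : ℕ, a + 1 ≤ b → b + 1 ≤ a + 120 * N →
  2 ^ 9 * Real.sqrt δ * (120 * N) ≤ 1 →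
  ∫ x in {x : ℕ → ℝ | YY K ℓ q x a b < cD ℓ x a b - 60},
    Real.exp (1 / (1 + α) * cD ℓ x a b) ∂(iid ν) ≤ AA ν ℓ (1 / (1 + α)) ^ (b + 1 - a) / 8

/-- DEN: the density. -/
def T_DEN : Prop := ∃ N1 : ℕ, 1 ≤ N1 ∧ ∀ (K : PMF ℕ) (α c δ : ℝ) (ℓ q N : ℕ) (ν : Measure ℝ),
  RG K α c δ ℓ q → N1 ≤ N → MC ν ℓ N (1 / (1 + α)) → 2 ^ 9 * Real.sqrt δ * (120 * N) ≤ 1 →
  Real.exp (-70) * (N : ℝ) ^ 2 ≤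
    ∫ x : ℕ → ℝ, w1 K ℓ q (240 * N) (60 * N) (120 * N) (3 * N) x ^ (1 / (1 + α)) ∂(iid ν)

/-- MU1: the moments from above. -/
def T_MU1 : Prop := ∀ (K : PMF ℕ) (α : ℝ) (ℓ q N n d0 d1 : ℕ) (β : ℝ) (ν : Measure ℝ), 1 ≤ N →
  1 / 2 ≤ α → α ≤ 1 → 1 ≤ n → 2 ≤ d0 → MC ν ℓ N (1 / (1 + α)) →
  Integrable (fun x => w1 K ℓ q n d0 d1 β x ^ (1 / (1 + α))) (iid ν) ∧
  Integrable (fun x => w1 K ℓ q n d0 d1 β x ^ (2 / (1 + α))) (iid ν) ∧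
  ∫ x, w1 K ℓ q n d0 d1 β x ^ (1 / (1 + α)) ∂(iid ν) ≤ n * n ∧
  ∫ x, w1 K ℓ q n d0 d1 β x ^ (2 / (1 + α)) ∂(iid ν) ≤ (n : ℝ) ^ 4 * Real.exp n

/-- OB1: the boxes. -/
def T_OB1 : Prop := ∃ N1 : ℕ, 1 ≤ N1 ∧ ∀ (K : PMF ℕ) (α c δ : ℝ) (ℓ q N : ℕ) (ν : Measure ℝ),
  RG K α c δ ℓ q → N1 ≤ N → MC ν ℓ N (1 / (1 + α)) → 2 ^ 9 * Real.sqrt δ * (120 * N) ≤ 1 →
  OBJ K ν ℓ α (3 * N) (240 * N) 1 (fun j => if j = 1 then Real.exp (-70) / 240 * N else 0)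
    (240 * N) ((240 * N) ^ 4 * Real.exp (240 * N))

/-- number of cells of the lower half -/
noncomputable def NN (K0 δ : ℝ) : ℕ := ⌈K0 * δ ^ (-(1 / 4 : ℝ))⌉₊

/-- LFN: the final chain. -/
def T_LFN : Prop := ∃ K0 δ2 : ℝ, 1 ≤ K0 ∧ 0 < δ2 ∧ ∀ (K : PMF ℕ) (α c δ : ℝ) (ℓ q : ℕ)
  (ν : Measure ℝ), δ < δ2 → RG K α c δ ℓ q → MC ν ℓ (NN K0 δ) (1 / (1 + α)) →
  ∃ (n : ℕ) (s' : ℝ), 1 ≤ n ∧ 0 < s' ∧ 4 * n / (δ / 64) <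
    s' * (iid ν).real {x : ℕ → ℝ | s' ≤ WB K ℓ n x ^ (1 / (1 + α))}

/-! ## D. The charges -/

/-- MOQ: exponential moments on the scale of the cells. -/
def T_MOQ : Prop := ∀ (μ : Measure ℝ) [IsProbabilityMeasure μ],
  (∀ t : ℝ, Integrable (fun z => Real.exp (t * z)) μ) → ∫ z, z ∂μ = 0 → ∫ z, z ^ 2 ∂μ = 1 →
  ∃ C lam0 : ℝ, 1 ≤ C ∧ 0 < lam0 ∧ ∀ lam m : ℝ, 0 < lam → lam < lam0 → 1 / 2 ≤ m → m ≤ 1 →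
  (∀ u : ℝ, -1 ≤ u → u ≤ 2 → Real.exp (2 * u ^ 2 - 2 * u * m - C * lam) ≤
      Mo (μ.map (fun z => -2 * lam * (z + m * lam))) u ^ ⌈1 / lam ^ 2⌉₊ ∧
    Mo (μ.map (fun z => -2 * lam * (z + m * lam))) u ^ ⌈1 / lam ^ 2⌉₊ ≤
      Real.exp (2 * u ^ 2 - 2 * u * m + C * lam)) ∧
  ∀ γ : ℝ, 1 / 2 ≤ γ → γ ≤ 2 / 3 →
    ⌈1 / lam ^ 2⌉₊ * |∫ z, z ∂((μ.map (fun z => -2 * lam * (z + m * lam))).tilted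
      fun z => γ / 2 * z)| ≤ 4 ∧
    |⌈1 / lam ^ 2⌉₊ * (∫ z, z ^ 2 ∂((μ.map (fun z => -2 * lam * (z + m * lam))).tilted
      fun z => γ / 2 * z)) - 4| ≤ C * lam ∧
    ⌈1 / lam ^ 2⌉₊ * (∫ z, z ^ 4 ∂((μ.map (fun z => -2 * lam * (z + m * lam))).tilted
      fun z => γ / 2 * z)) ≤ C * lam

/-- MCM: the conditions of the lower half. -/
def T_MCM : Prop := ∀ K0 : ℝ, 1 ≤ K0 → ∃ δ3 : ℝ, 0 < δ3 ∧ ∀ (μ : Measure ℝ)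
  [IsProbabilityMeasure μ], (∀ t : ℝ, Integrable (fun z => Real.exp (t * z)) μ) →
  ∫ z, z ∂μ = 0 → ∫ z, z ^ 2 ∂μ = 1 → ∃ lam0 : ℝ, 0 < lam0 ∧ ∀ lam δ α : ℝ, 0 < lam →
  lam < lam0 → 0 < δ → δ < δ3 → 1 - δ ≤ α → α ≤ 1 → lam ≤ δ ^ 2 →
  MC (μ.map (fun z => -2 * lam * (z + (3 / 4 + δ ^ (1 / 4 : ℝ) / (300 * K0)) * lam)))
    ⌈1 / lam ^ 2⌉₊ (NN K0 δ) (1 / (1 + α))

/-- the exponent of the upper half -/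
noncomputable def tu (α δ : ℝ) : ℝ := 1 / (1 + α) + 70 * δ ^ (1 / 4 : ℝ)

/-- UMM: the conditions of the upper half. -/
def T_UMM : Prop := ∃ δ3 : ℝ, 0 < δ3 ∧ ∀ (μ : Measure ℝ) [IsProbabilityMeasure μ],
  (∀ t : ℝ, Integrable (fun z => Real.exp (t * z)) μ) → ∫ z, z ∂μ = 0 → ∫ z, z ^ 2 ∂μ = 1 →
  ∃ lam0 : ℝ, 0 < lam0 ∧ ∀ lam δ α : ℝ, 0 < lam → lam < lam0 → 0 < δ → δ < δ3 → 1 - δ ≤ α →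
  α ≤ 1 → lam ≤ δ ^ 2 → ∃ ρ τ : ℝ,
  UM (μ.map (fun z => -2 * lam * (z + (3 / 4 + 70 * δ ^ (1 / 4 : ℝ)) * lam)))
    ⌈1 / lam ^ 2⌉₊ (tu α δ) ρ τ δ (70 / 16 * δ ^ (1 / 4 : ℝ))

/-! ## E. Upper half -/

/-- UDC: decomposition at the first excursion of more than `k` sites. -/
def T_UDC : Prop := ∀ (K : PMF ℕ) (k B : ℕ) (g : ℕ → ℝ≥0∞), 1 ≤ k → k ≤ B →
  (∀ D m : ℕ, 1 ≤ D → k < m → (D - 1) * k < m → m < (D + 1) * k → pk K m * 2⁻¹ ≤ g D) →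
  ∀ (p : Bool) (j : ℕ) (x : ℕ → ℝ), NX (Pool.Agent.H99.CE.w1 K B) k p false j x ≤
    NX (Pool.Agent.H99.CE.w0 K k k) k p false j x +
    ∑ i ∈ Finset.range (j + 1), ∑ D ∈ Finset.Icc 1 j, if i + D ≤ j then
      (NX (Pool.Agent.H99.CE.w0 K k k) k p false i x *
        (g D * NX (Pool.Agent.H99.CE.w1 K B) k false false (j - i - D)
          (shift ((i + D) * k) x)) +
      NX (Pool.Agent.H99.CE.w0 K k k) k p true i x *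
        (g D * ex ((i + 1) * k) ((i + D) * k) x *
          NX (Pool.Agent.H99.CE.w1 K B) k true false (j - i - D) (shift ((i + D) * k) x)))
      else 0

/-- UMO: the renewal inequality for the moments. -/
def T_UMO : Prop := ∀ (K : PMF ℕ) (ν : Measure ℝ) [IsProbabilityMeasure ν] (k B : ℕ)
  (g : ℕ → ℝ≥0∞) (θ : ℝ) (fh lh : ℝ≥0∞), 1 ≤ k → k ≤ B → 0 < θ → θ ≤ 1 →
  (∀ D m : ℕ, 1 ≤ D → k < m → (D - 1) * k < m → m < (D + 1) * k → pk K m * 2⁻¹ ≤ g D) →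
  (∀ p q n, ∑ i ∈ Finset.range n,
    ∫⁻ x, NX (Pool.Agent.H99.CE.w0 K k k) k p q i x ^ θ ∂(iid ν) ≤ fh) →
  (∀ n, ∑ D ∈ Finset.Icc 1 n, g D ^ θ ≤ lh) → (∀ n, ∫⁻ x, ex 0 n x ^ θ ∂(iid ν) ≤ 1) →
  fh * lh ≤ 8⁻¹ → ∀ n, ∑ j ∈ Finset.range n,
    ∫⁻ x, NX (Pool.Agent.H99.CE.w1 K B) k false false j x ^ θ ∂(iid ν) ≤ 2 * fh

/-- UCR: the criterion. -/
def T_UCR : Prop := ∀ K : PMF ℕ, K 0 = 0 → ∀ (ν : Measure ℝ) [IsProbabilityMeasure ν] (k : ℕ)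
  (θ F : ℝ), 1 ≤ k → 0 < θ → θ ≤ 1 → 0 ≤ F →
  (∀ B n, k ≤ B → ∑ j ∈ Finset.range n,
    ∫⁻ x, NX (Pool.Agent.H99.CE.w1 K B) k false false j x ^ θ ∂(iid ν) ≤ ENNReal.ofReal F) →
  (∀ n, ∫⁻ x, ex 0 n x ^ θ ∂(iid ν) ≤ 1) →
  ∃ C : ℝ, 0 ≤ C ∧ ∀ N : ℕ, ∫⁻ x, Wn K N x ^ θ ∂(iid ν) ≤ ENNReal.ofReal C

/-- EXM: moments of the charges. -/
def T_EXM : Prop := ∀ (ν : Measure ℝ) [IsProbabilityMeasure ν],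
  (∀ t : ℝ, Integrable (fun z => Real.exp (t * z)) ν) → ∀ (θ : ℝ) (n : ℕ), 0 ≤ θ →
  ∫⁻ x, ex 0 n x ^ θ ∂(iid ν) = ENNReal.ofReal (Mo ν θ ^ n) ∧
  ∀ u : ℝ, ∫⁻ x : ℕ → ℝ, ENNReal.ofReal (Real.exp (u * H x 0 n)) ∂(iid ν) =
    ENNReal.ofReal (Mo ν u ^ n)

/-- HOL: Hölder with a tilt. -/
def T_HOL : Prop := ∀ (ν : Measure ℝ) [IsProbabilityMeasure ν],
  (∀ t : ℝ, Integrable (fun z => Real.exp (t * z)) ν) → ∀ (θ : ℝ) (n : ℕ)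
  (F : (ℕ → ℝ) → ℝ≥0∞), 0 < θ → θ < 1 → Measurable F →
  ∫⁻ x, F x ^ θ ∂(iid ν) ≤
    (∫⁻ x, F x * ENNReal.ofReal (Real.exp (-(1 - θ) / 2 * H x 0 n)) ∂(iid ν)) ^ θ *
      ENNReal.ofReal (Mo ν (θ / 2) ^ n) ^ (1 - θ)

/-- UTX: the tilted mean of the neutral stretches. -/
def T_UTX : Prop := ∀ (K : PMF ℕ) (ν : Measure ℝ) [IsProbabilityMeasure ν],
  (∀ t : ℝ, Integrable (fun z => Real.exp (t * z)) ν) → ∀ (k : ℕ) (θ ρ τ : ℝ), 1 ≤ k →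
  0 < ρ → 0 ≤ τ → τ * k ≤ 1 → Mo ν (-(1 - θ) / 2) ≤ ρ * Real.exp τ →
  Mo ν ((1 + θ) / 2) ≤ ρ * Real.exp (-τ) → ∀ (p q : Bool) (b : ℕ),
  ∫⁻ x, NX (Pool.Agent.H99.CE.w0 K k k) k p q b x *
      ENNReal.ofReal (Real.exp (-(1 - θ) / 2 * H x 0 ((b + 1) * k))) ∂(iid ν) ≤
    ENNReal.ofReal (ρ ^ ((b + 1) * k) * Real.exp 2 * VB K k τ b)

/-- USP: the neutral kernel. -/
def T_USP : Prop := ∀ (K : PMF ℕ) (α c δ : ℝ) (k q : ℕ), RG K α c δ k q → ∀ τ : ℝ, 0 ≤ τ →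
  τ * k ≤ 1 → (∀ N, ∑ m ∈ Finset.range N, kt K k τ m * Real.exp (-(64 * δ * m / k)) ≤ 1) ∧
  TS K k / 2 ≤ ∑ j ∈ Finset.range k,
    (1 - ∑ m ∈ Finset.range (j + 1), kt K k τ m * Real.exp (-(64 * δ * m / k)))

/-- USB: the neutral mass. -/
def T_USB : Prop := ∀ (K : PMF ℕ) (α c δ : ℝ) (k q : ℕ), RG K α c δ k q → ∀ τ : ℝ, 0 ≤ τ →
  τ * k ≤ 1 → ∀ b : ℕ, VB K k τ b ≤ Real.exp (64 * δ * (b + 1)) * (4 * (k : ℝ) ^ 2 / TS K k)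

/-- ULM: the moments of the neutral stretches. -/
def T_ULM : Prop := ∀ (K : PMF ℕ) (α c δ : ℝ) (k q : ℕ), RG K α c δ k q → ∀ (ν : Measure ℝ)
  (θ ρ τ κ : ℝ), UM ν k θ ρ τ δ κ → ∀ (p q' : Bool) (b : ℕ),
  ∫⁻ x, NX (Pool.Agent.H99.CE.w0 K k k) k p q' b x ^ θ ∂(iid ν) ≤
    ENNReal.ofReal ((Real.exp 2 * (4 * (k : ℝ) ^ 2 / TS K k)) ^ θ *
      Real.exp (-(κ * (b + 1))))

/-- ULK: the links. -/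
def T_ULK : Prop := ∀ (K : PMF ℕ) (α c δ : ℝ) (k q : ℕ), RG K α c δ k q →
  (∀ D m : ℕ, 1 ≤ D → k < m → (D - 1) * k < m → m < (D + 1) * k →
    pk K m * 2⁻¹ ≤ ENNReal.ofReal (gl α c k D)) ∧
  ∀ θ s : ℝ, 0 < θ → 0 < s → (1 + α) * θ = 1 + s → ∀ n : ℕ,
    ∑ D ∈ Finset.Icc 1 n, ENNReal.ofReal (gl α c k D) ^ θ ≤
      ENNReal.ofReal ((c * (k : ℝ) ^ (-(1 + α))) ^ θ * (2 + 1 / s))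

/-- UFN: the moments of the partition function are bounded. -/
def T_UFN : Prop := ∃ δ2 : ℝ, 0 < δ2 ∧ ∀ (K : PMF ℕ) (α c δ : ℝ) (k q : ℕ) (ν : Measure ℝ)
  (ρ τ : ℝ), δ < δ2 → RG K α c δ k q → UM ν k (tu α δ) ρ τ δ (70 / 16 * δ ^ (1 / 4 : ℝ)) →
  ∃ C : ℝ, 0 ≤ C ∧ ∀ N : ℕ, ∫⁻ x, Wn K N x ^ tu α δ ∂(iid ν) ≤ ENNReal.ofReal C

/-- MOH: monotonicity in `h`. -/
def T_MOH : Prop := ∀ (K : PMF ℕ) (μ : Measure ℝ) [IsProbabilityMeasure μ] (lam h h' θ : ℝ),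
  0 ≤ lam → h ≤ h' → 0 ≤ θ → ∀ N : ℕ, ∫⁻ x, Wn K N x ^ θ ∂(iid (chargeLaw μ lam h')) ≤
    ∫⁻ x, Wn K N x ^ θ ∂(iid (chargeLaw μ lam h))

/-! ## F. The inter-arrival law -/

/-- KRA: `α < 1`. -/
def T_KRA : Prop := ∀ α : ℝ, 1 - 1 / 2 ^ 20 ≤ α → α < 1 → ∀ (K : PMF ℕ), K 0 = 0 → ∀ cK : ℝ,
  0 < cK → Tendsto (fun n : ℕ => (K n).toReal * (n : ℝ) ^ (1 + α)) atTop (𝓝 cK) →
  ∀ᶠ ℓ : ℕ in atTop, RG K α cK (1 - α) ℓ ⌊Real.sqrt (1 - α) * ℓ⌋₊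

/-- KRB: `α = 1`. -/
def T_KRB : Prop := ∀ (K : PMF ℕ), K 0 = 0 → ∀ cK : ℝ, 0 < cK →
  Tendsto (fun n : ℕ => (K n).toReal * (n : ℝ) ^ (1 + (1 : ℝ))) atTop (𝓝 cK) →
  ∀ᶠ ℓ : ℕ in atTop, RG K 1 cK (1 / Real.log ℓ) ℓ ⌊Real.sqrt (1 / Real.log ℓ) * ℓ⌋₊

/-! ## G. The theorems -/

/-- LWA: lower bound, `α < 1`. -/
def T_LWA : Prop := ∃ c α0 : ℝ, 0 < c ∧ α0 < 1 ∧ ∀ α : ℝ, α0 < α → α < 1 → ∀ (K : PMF ℕ),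
  K 0 = 0 → ∀ cK : ℝ, 0 < cK →
  Tendsto (fun n : ℕ => (K n).toReal * (n : ℝ) ^ (1 + α)) atTop (𝓝 cK) →
  ∀ (μ : Measure ℝ) [IsProbabilityMeasure μ],
  (∀ t : ℝ, Integrable (fun z => Real.exp (t * z)) μ) → ∫ z, z ∂μ = 0 → ∫ z, z ^ 2 ∂μ = 1 →
  ∀ᶠ lam in 𝓝[>] (0 : ℝ), 3 / 4 + c * (1 - α) ^ (1 / 4 : ℝ) ≤ criticalCurve K μ lam / lam

/-- LWB: lower bound, `α = 1`. -/
def T_LWB : Prop := ∃ c : ℝ, 0 < c ∧ ∀ (K : PMF ℕ), K 0 = 0 → ∀ cK : ℝ, 0 < cK →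
  Tendsto (fun n : ℕ => (K n).toReal * (n : ℝ) ^ (1 + (1 : ℝ))) atTop (𝓝 cK) →
  ∀ (μ : Measure ℝ) [IsProbabilityMeasure μ],
  (∀ t : ℝ, Integrable (fun z => Real.exp (t * z)) μ) → ∫ z, z ∂μ = 0 → ∫ z, z ^ 2 ∂μ = 1 →
  ∀ᶠ lam in 𝓝[>] (0 : ℝ),
    3 / 4 + c * Real.log (1 / lam) ^ (-(1 / 4) : ℝ) ≤ criticalCurve K μ lam / lam

/-- UPA: upper bound, `α < 1`. -/
def T_UPA : Prop := ∃ α0 : ℝ, α0 < 1 ∧ ∀ α : ℝ, α0 < α → α < 1 → ∀ (K : PMF ℕ),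
  K 0 = 0 → ∀ cK : ℝ, 0 < cK →
  Tendsto (fun n : ℕ => (K n).toReal * (n : ℝ) ^ (1 + α)) atTop (𝓝 cK) →
  ∀ (μ : Measure ℝ) [IsProbabilityMeasure μ],
  (∀ t : ℝ, Integrable (fun z => Real.exp (t * z)) μ) → ∫ z, z ∂μ = 0 → ∫ z, z ^ 2 ∂μ = 1 →
  ∀ᶠ lam in 𝓝[>] (0 : ℝ), criticalCurve K μ lam / lam ≤ 3 / 4 + 70 * (1 - α) ^ (1 / 4 : ℝ)

/-- UPB: upper bound, `α = 1`. -/
def T_UPB : Prop := ∀ (K : PMF ℕ), K 0 = 0 → ∀ cK : ℝ, 0 < cK →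
  Tendsto (fun n : ℕ => (K n).toReal * (n : ℝ) ^ (1 + (1 : ℝ))) atTop (𝓝 cK) →
  ∀ (μ : Measure ℝ) [IsProbabilityMeasure μ],
  (∀ t : ℝ, Integrable (fun z => Real.exp (t * z)) μ) → ∫ z, z ∂μ = 0 → ∫ z, z ^ 2 ∂μ = 1 →
  ∀ᶠ lam in 𝓝[>] (0 : ℝ),
    criticalCurve K μ lam / lam ≤ 3 / 4 + 70 * Real.log (1 / lam) ^ (-(1 / 4) : ℝ)

end Pool.Agent.H98.SLN
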