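import Pool.Agent.H98.SLN.Targets

set_option autoImplicit false

open MeasureTheory ProbabilityTheory Filter Topology
open scoped ENNReal
open Pool.Agent.H95 Pool.Agent.H95.Cop
open Pool.Agent.H55.CG (pz VV Mo)
open Pool.Agent.H98.CE (pc WB HK OBJ)
open Pool.Agent.H96.Cop (ex pk Wn chargeLaw)
open Pool.Agent.H99.CE (NX PF)

namespace Pool.Agent.H98.SLN

theorem pf_UCR (hPFM : Pool.Agent.H99.CE.T_PFM) (hWPF : Pool.Agent.H99.CE.T_WPF) : T_UCR := by
  intro K hK0 ν _ k θ F hk hθ0 hθ1 hF hmain hex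
  refine ⟨2 * (k * F), by positivity, fun N => ?_⟩
  set B : ℕ := N + k with hB
  obtain ⟨hP1, -, -⟩ := hPFM.1 (Pool.Agent.H99.CE.w1 K B) ((hPFM.2 K).1 _)
  have hbox : ∀ j r, r < k → ∀ x, PF (Pool.Agent.H99.CE.w1 K B) (j * k + r) x ≤
      NX (Pool.Agent.H99.CE.w1 K B) k false false j x := by
    intro j r hr x
    unfold NX
    have h7 : PF (Pool.Agent.H99.CE.w1 K B) (j * k + r) x =
        (if 0 ≤ j * k + r then
          (if false = true then ex 0 0 x else 1) *
            PF (Pool.Agent.H99.CE.w1 K B) (j * k + r - 0) (shift 0 x) *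
          (if false = true then ex (j * k + r) ((j + 1) * k) x else 1) else 0) := by
      rw [if_pos (Nat.zero_le _), Nat.sub_zero]
      simp only [Bool.false_eq_true, if_false, one_mul, mul_one]
      rfl
    rw [h7]
    refine le_trans ?_ (Finset.single_le_sum (f := fun e => ∑ r ∈ Finset.range k,
      (if e ≤ j * k + r then (if false = true then ex 0 e x else 1) *
            PF (Pool.Agent.H99.CE.w1 K B) (j * k + r - e) (shift e x) *
          (if false = true then ex (j * k + r) ((j + 1) * k) x else 1) else 0))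
      (fun _ _ => zero_le) (Finset.mem_range.2 (show 0 < k by omega)))
    exact Finset.single_le_sum (f := fun r =>
      (if 0 ≤ j * k + r then
          (if false = true then ex 0 0 x else 1) *
            PF (Pool.Agent.H99.CE.w1 K B) (j * k + r - 0) (shift 0 x) *
          (if false = true then ex (j * k + r) ((j + 1) * k) x else 1) else 0))
      (fun _ _ => zero_le) (Finset.mem_range.2 hr)
  have hsum : ∑ s ∈ Finset.range (N + 1),
      ∫⁻ x, PF (Pool.Agent.H99.CE.w1 K B) s x ^ θ ∂(iid ν) ≤ k * ENNReal.ofReal F := by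
    calc ∑ s ∈ Finset.range (N + 1), ∫⁻ x, PF (Pool.Agent.H99.CE.w1 K B) s x ^ θ ∂(iid ν)
        ≤ ∑ s ∈ Finset.range ((N + 1) * k),
          ∫⁻ x, PF (Pool.Agent.H99.CE.w1 K B) s x ^ θ ∂(iid ν) := by
          apply Finset.sum_le_sum_of_subset
          intro s hs
          rw [Finset.mem_range] at hs ⊢
          exact hs.trans_le (Nat.le_mul_of_pos_right _ (by omega))
      _ = ∑ j ∈ Finset.range (N + 1), ∑ r ∈ Finset.range k,
          ∫⁻ x, PF (Pool.Agent.H99.CE.w1 K B) (j * k + r) x ^ θ ∂(iid ν) :=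
          Pool.Agent.H96.Cop.sum_cells _ _ _
      _ ≤ ∑ j ∈ Finset.range (N + 1), ∑ _r ∈ Finset.range k,
          ∫⁻ x, NX (Pool.Agent.H99.CE.w1 K B) k false false j x ^ θ ∂(iid ν) := by
          refine Finset.sum_le_sum fun j _ => Finset.sum_le_sum fun r hr => ?_
          refine lintegral_mono fun x => ?_
          exact ENNReal.rpow_le_rpow (hbox j r (Finset.mem_range.1 hr) x) hθ0.le
      _ = k * ∑ j ∈ Finset.range (N + 1),
          ∫⁻ x, NX (Pool.Agent.H99.CE.w1 K B) k false false j x ^ θ ∂(iid ν) := by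
          rw [Finset.mul_sum]
          refine Finset.sum_congr rfl fun j _ => ?_
          rw [Finset.sum_const, Finset.card_range, nsmul_eq_mul]
      _ ≤ _ := mul_le_mul_right (hmain B (N + 1) (by omega)) _
  have hterm : ∀ s ∈ Finset.range (N + 1),
      ∫⁻ x, (PF (Pool.Agent.H99.CE.w1 K B) s x * (1 + ex s N x)) ^ θ ∂(iid ν) ≤
      2 * ∫⁻ x, PF (Pool.Agent.H99.CE.w1 K B) s x ^ θ ∂(iid ν) := by
    intro s hs
    have hsN : s ≤ N := by
      have := Finset.mem_range.1 hs
      omega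
    have hmeas : Measurable fun x => PF (Pool.Agent.H99.CE.w1 K B) s x ^ θ :=
      (hP1 s).1.pow_const _
    calc ∫⁻ x, (PF (Pool.Agent.H99.CE.w1 K B) s x * (1 + ex s N x)) ^ θ ∂(iid ν)
        ≤ ∫⁻ x, (PF (Pool.Agent.H99.CE.w1 K B) s x ^ θ +
          PF (Pool.Agent.H99.CE.w1 K B) s x ^ θ *
            (fun y => ex 0 (N - s) y ^ θ) (shift s x)) ∂(iid ν) := by
          refine lintegral_mono fun x => ?_
          have e1 : ex 0 (N - s) (shift s x) = ex s N x := by
            rw [Pool.Agent.H96.Cop.ex_shift, zero_add, Nat.sub_add_cancel hsN]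
          change (PF (Pool.Agent.H99.CE.w1 K B) s x * (1 + ex s N x)) ^ θ ≤
            PF (Pool.Agent.H99.CE.w1 K B) s x ^ θ +
            PF (Pool.Agent.H99.CE.w1 K B) s x ^ θ * ex 0 (N - s) (shift s x) ^ θ
          rw [e1, ENNReal.mul_rpow_of_nonneg _ _ hθ0.le]
          calc PF (Pool.Agent.H99.CE.w1 K B) s x ^ θ * (1 + ex s N x) ^ θ
              ≤ PF (Pool.Agent.H99.CE.w1 K B) s x ^ θ *
                (1 ^ θ + ex s N x ^ θ) :=
                mul_le_mul_right (ENNReal.rpow_add_le_add_rpow _ _ hθ0.le hθ1) _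
            _ = _ := by rw [ENNReal.one_rpow, mul_add, mul_one]
      _ = ∫⁻ x, PF (Pool.Agent.H99.CE.w1 K B) s x ^ θ ∂(iid ν) +
          ∫⁻ x, PF (Pool.Agent.H99.CE.w1 K B) s x ^ θ *
            (fun y => ex 0 (N - s) y ^ θ) (shift s x) ∂(iid ν) :=
          lintegral_add_left hmeas _
      _ = ∫⁻ x, PF (Pool.Agent.H99.CE.w1 K B) s x ^ θ ∂(iid ν) +
          (∫⁻ x, PF (Pool.Agent.H99.CE.w1 K B) s x ^ θ ∂(iid ν)) *
            ∫⁻ y, ex 0 (N - s) y ^ θ ∂(iid ν) := by
          congr 1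
          rw [Pool.Agent.H96.Cop.lint_mul_shift ν (t := s)
            (f := fun x => PF (Pool.Agent.H99.CE.w1 K B) s x ^ θ)
            (g := fun y => ex 0 (N - s) y ^ θ)]
          · intro x x' h
            simp only
            rw [(hP1 s).2.1 x x' h]
          · exact hmeas
          · exact (Pool.Agent.H96.Cop.measurable_ex 0 (N - s)).pow_const _
      _ ≤ ∫⁻ x, PF (Pool.Agent.H99.CE.w1 K B) s x ^ θ ∂(iid ν) +
          (∫⁻ x, PF (Pool.Agent.H99.CE.w1 K B) s x ^ θ ∂(iid ν)) * 1 := by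
          gcongr
          exact hex (N - s)
      _ = 2 * ∫⁻ x, PF (Pool.Agent.H99.CE.w1 K B) s x ^ θ ∂(iid ν) := by
          rw [mul_one, two_mul]
  calc ∫⁻ x, Wn K N x ^ θ ∂(iid ν)
      ≤ ∫⁻ x, ∑ s ∈ Finset.range (N + 1),
        (PF (Pool.Agent.H99.CE.w1 K B) s x * (1 + ex s N x)) ^ θ ∂(iid ν) := by
        refine lintegral_mono fun x => ?_
        exact (ENNReal.rpow_le_rpow (hWPF K hK0 N B (by omega) x) hθ0.le).trans
          (Pool.Agent.H96.Cop.rpow_sum_le _ _ _ hθ0 hθ1)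
    _ = ∑ s ∈ Finset.range (N + 1),
        ∫⁻ x, (PF (Pool.Agent.H99.CE.w1 K B) s x * (1 + ex s N x)) ^ θ ∂(iid ν) := by
        apply lintegral_finsetSum
        intro s _
        exact (((hP1 s).1.mul
          (measurable_const.add (Pool.Agent.H96.Cop.measurable_ex s N))).pow_const _)
    _ ≤ ∑ s ∈ Finset.range (N + 1),
        2 * ∫⁻ x, PF (Pool.Agent.H99.CE.w1 K B) s x ^ θ ∂(iid ν) := Finset.sum_le_sum hterm
    _ = 2 * ∑ s ∈ Finset.range (N + 1),
        ∫⁻ x, PF (Pool.Agent.H99.CE.w1 K B) s x ^ θ ∂(iid ν) := by rw [Finset.mul_sum]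
    _ ≤ 2 * (k * ENNReal.ofReal F) := mul_le_mul_right hsum _
    _ = ENNReal.ofReal (2 * (k * F)) := by
        rw [ENNReal.ofReal_mul (p := (2 : ℝ)) (by norm_num),
          ENNReal.ofReal_mul (p := (k : ℝ)) (Nat.cast_nonneg _), ENNReal.ofReal_natCast,
          ENNReal.ofReal_ofNat]

end Pool.Agent.H98.SLN
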