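import Pool.Agent.H98.SLN.Targets

set_option autoImplicit false

open MeasureTheory ProbabilityTheory Filter Topology
open scoped ENNReal
open Pool.Agent.H95 Pool.Agent.H95.Cop
open Pool.Agent.H55.CG (pz VV Mo)
open Pool.Agent.H98.CE (pc WB HK OBJ)
open Pool.Agent.H96.Cop (ex pk Wn chargeLaw)
open Pool.Agent.H99.CE (NX PF)

namespace Pool.Agent.H98.SLN

/-- a geometric sum -/
lemma ufn_geo (κ : ℝ) (hκ : 0 < κ) (n : ℕ) :
    ∑ i ∈ Finset.range n, Real.exp (-(κ * ((i : ℝ) + 1))) ≤ 1 / κ := by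
  have hr1 : Real.exp (-κ) < 1 := by rw [Real.exp_lt_one_iff]; linarith
  have hr0 : 0 < Real.exp (-κ) := Real.exp_pos _
  have h1 : ∀ i : ℕ, Real.exp (-(κ * ((i : ℝ) + 1))) = Real.exp (-κ) * Real.exp (-κ) ^ i := by
    intro i
    rw [← Real.exp_nat_mul, ← Real.exp_add]
    congr 1
    ring
  simp_rw [h1]
  rw [← Finset.mul_sum]
  have h2 : ∑ i ∈ Finset.range n, Real.exp (-κ) ^ i ≤ 1 / (1 - Real.exp (-κ)) := by
    have h3 := geom_sum_mul_neg (Real.exp (-κ)) n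
    rw [le_div_iff₀ (by linarith), h3]
    have : 0 ≤ Real.exp (-κ) ^ n := by positivity
    linarith
  calc Real.exp (-κ) * ∑ i ∈ Finset.range n, Real.exp (-κ) ^ i
      ≤ Real.exp (-κ) * (1 / (1 - Real.exp (-κ))) := mul_le_mul_of_nonneg_left h2 hr0.le
    _ ≤ 1 / κ := by
        rw [mul_one_div, div_le_div_iff₀ (by linarith) hκ]
        have h4 : κ + 1 ≤ Real.exp κ := Real.add_one_le_exp κ
        have h5 : Real.exp (-κ) * Real.exp κ = 1 := by rw [← Real.exp_add]; simp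
        nlinarith

/-- the numbers -/
lemma ufn_num (α c δ x θ s κ T kk1 : ℝ) (hδ : 0 < δ) (hx : 0 < x) (hx2 : x ≤ 1 / 256)
    (hx4 : x ^ 4 = δ) (hα : 1 - δ ≤ α) (hα1 : α ≤ 1) (hθ : 1 / 2 ≤ θ)
    (hs : s = (1 + α) * (70 * x)) (hκ : κ = 70 / 16 * x) (hc : 0 < c) (hT : 0 < T)
    (hk1 : 0 < kk1) (hr : c * kk1 ≤ 4 * δ * T) :
    (Real.exp 2 * (4 * kk1 / T) * c) ^ θ / κ * (2 + 1 / s) ≤ 1 / 8 := by
  have hδs : δ ≤ 1 / 256 ^ 4 := by
    rw [← hx4]
    calc x ^ 4 ≤ (1 / 256) ^ 4 := pow_le_pow_left₀ hx.le hx2 4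
      _ = 1 / 256 ^ 4 := by norm_num
  have hs1 : 100 * x ≤ s := by
    rw [hs]
    have : (1.9 : ℝ) ≤ 1 + α := by
      have : δ ≤ 0.1 := hδs.trans (by norm_num)
      linarith
    nlinarith
  have hs2 : s ≤ 1 := by
    rw [hs]
    nlinarith
  have hs0 : 0 < s := by nlinarith
  have hκ0 : 0 < κ := by rw [hκ]; positivity
  have he1 : Real.exp 1 ≤ 2.7182818286 := Real.exp_one_lt_d9.le
  have he2 : Real.exp 2 = Real.exp 1 ^ 2 := by
    rw [← Real.exp_nat_mul]; norm_num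
  have he0 : 0 < Real.exp 1 := Real.exp_pos 1
  have hb0 : 0 < Real.exp 2 * (4 * kk1 / T) * c := by positivity
  have hb1 : Real.exp 2 * (4 * kk1 / T) * c ≤ (4 * Real.exp 1 * x ^ 2) ^ 2 := by
    have : Real.exp 2 * (4 * kk1 / T) * c = Real.exp 2 * 4 * (c * kk1 / T) := by
      field_simp
    rw [this]
    have h2 : c * kk1 / T ≤ 4 * δ := by
      rw [div_le_iff₀ hT]; exact hr
    calc Real.exp 2 * 4 * (c * kk1 / T) ≤ Real.exp 2 * 4 * (4 * δ) := by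
          apply mul_le_mul_of_nonneg_left h2 (by positivity)
      _ = (4 * Real.exp 1 * x ^ 2) ^ 2 := by
          rw [he2, ← hx4]; ring
  have hy0 : 0 < 4 * Real.exp 1 * x ^ 2 := by positivity
  have hy1 : 4 * Real.exp 1 * x ^ 2 ≤ 1 := by
    have : x ^ 2 ≤ 1 / 256 ^ 2 := by
      calc x ^ 2 ≤ (1 / 256) ^ 2 := pow_le_pow_left₀ hx.le hx2 2
        _ = 1 / 256 ^ 2 := by norm_num
    have hx20 : 0 ≤ x ^ 2 := by positivity
    nlinarith
  have hpow : (Real.exp 2 * (4 * kk1 / T) * c) ^ θ ≤ 4 * Real.exp 1 * x ^ 2 := by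
    calc (Real.exp 2 * (4 * kk1 / T) * c) ^ θ ≤ ((4 * Real.exp 1 * x ^ 2) ^ 2) ^ θ :=
          Real.rpow_le_rpow hb0.le hb1 (by linarith)
      _ = (4 * Real.exp 1 * x ^ 2) ^ (2 * θ) := by
          rw [← Real.rpow_natCast, ← Real.rpow_mul hy0.le]
          norm_num
      _ ≤ (4 * Real.exp 1 * x ^ 2) ^ (1 : ℝ) :=
          Real.rpow_le_rpow_of_exponent_ge hy0 hy1 (by linarith)
      _ = _ := Real.rpow_one _
  have h3 : 2 + 1 / s ≤ 3 / s := by
    rw [le_div_iff₀ hs0]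
    have : (2 + 1 / s) * s = 2 * s + 1 := by field_simp
    rw [this]; linarith
  calc (Real.exp 2 * (4 * kk1 / T) * c) ^ θ / κ * (2 + 1 / s)
      ≤ (4 * Real.exp 1 * x ^ 2) / κ * (3 / s) := by
        apply mul_le_mul _ h3 (by positivity) (by positivity)
        exact div_le_div_of_nonneg_right hpow hκ0.le
    _ ≤ 1 / 8 := by
        rw [div_mul_div_comm, div_le_div_iff₀ (by positivity) (by norm_num), hκ]
        have h5 : 70 / 16 * x * (100 * x) ≤ 70 / 16 * x * s := by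
          apply mul_le_mul_of_nonneg_left hs1 (by positivity)
        have h6 : 0 < x ^ 2 := by positivity
        nlinarith

theorem pf_UFN (hUMO : T_UMO) (hUCR : T_UCR) (hEXM : T_EXM) (hULM : T_ULM) (hULK : T_ULK)
    (hTLQ : T_TLQ) : T_UFN := by
  refine ⟨(1 / 256) ^ 4, by positivity, ?_⟩
  intro K α c δ k q ν ρ τ hδ2 hRG hUM
  obtain ⟨hk1, -, hTS, -, -⟩ := hTLQ K α c δ k q hRG
  have hν := hUM.prob
  have hδ0 := hRG.δ0
  set x : ℝ := δ ^ (1 / 4 : ℝ) with hxdef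
  have hx0 : 0 < x := Real.rpow_pos_of_pos hδ0 _
  have hx4 : x ^ 4 = δ := by
    rw [hxdef, ← Real.rpow_natCast, ← Real.rpow_mul hδ0.le]
    norm_num
  have hx2 : x ≤ 1 / 256 := by
    have h1 : x ^ 4 ≤ (1 / 256 : ℝ) ^ 4 := by rw [hx4]; exact hδ2.le
    exact le_of_pow_le_pow_left₀ (by norm_num) (by norm_num) h1
  have hα0 := hRG.α0
  have hα1 := hRG.α1
  have hδ1 := hRG.δ1
  have hδh : δ ≤ 1 / 2 := hδ1.trans (by norm_num)
  have h1α : 0 < 1 + α := by linarith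
  set θ : ℝ := tu α δ with hθdef
  have hθeq : θ = 1 / (1 + α) + 70 * x := rfl
  have hθh : 1 / 2 ≤ θ := by
    rw [hθeq]
    have : 1 / 2 ≤ 1 / (1 + α) := one_div_le_one_div_of_le h1α (by linarith)
    linarith
  have hθ0 := hUM.θ0
  have hθ1 := hUM.θ1
  set s : ℝ := (1 + α) * (70 * x) with hsdef
  have hs0 : 0 < s := by positivity
  have hθs : (1 + α) * θ = 1 + s := by
    rw [hθeq, hsdef]
    field_simp
  set κ : ℝ := 70 / 16 * x with hκdef
  have hκ0 : 0 < κ := by positivity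
  have hk0 : (0 : ℝ) < k := by exact_mod_cast (by omega : 0 < k)
  set A : ℝ := Real.exp 2 * (4 * (k : ℝ) ^ 2 / TS K k) with hA
  have hA0 : 0 < A := by positivity
  have hAθ : 0 < A ^ θ := Real.rpow_pos_of_pos hA0 _
  have hf : ∀ p q' n, ∑ i ∈ Finset.range n,
      ∫⁻ x, NX (Pool.Agent.H99.CE.w0 K k k) k p q' i x ^ θ ∂(iid ν) ≤
        ENNReal.ofReal (A ^ θ / κ) := by
    intro p q' n
    calc ∑ i ∈ Finset.range n, ∫⁻ x, NX (Pool.Agent.H99.CE.w0 K k k) k p q' i x ^ θ ∂(iid ν)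
        ≤ ∑ i ∈ Finset.range n, ENNReal.ofReal (A ^ θ * Real.exp (-(κ * ((i : ℝ) + 1)))) := by
          apply Finset.sum_le_sum
          intro i _
          exact hULM K α c δ k q hRG ν θ ρ τ κ hUM p q' i
      _ = ENNReal.ofReal (∑ i ∈ Finset.range n, A ^ θ * Real.exp (-(κ * ((i : ℝ) + 1)))) := by
          rw [ENNReal.ofReal_sum_of_nonneg]
          intro i _
          positivity
      _ ≤ _ := by
          apply ENNReal.ofReal_le_ofReal
          rw [← Finset.mul_sum, div_eq_mul_one_div]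
          exact mul_le_mul_of_nonneg_left (ufn_geo κ hκ0 n) hAθ.le
  obtain ⟨hl1, hl2⟩ := hULK K α c δ k q hRG
  have hl3 := hl2 θ s hθ0 hs0 hθs
  have hex : ∀ n, ∫⁻ x, ex 0 n x ^ θ ∂(iid ν) ≤ 1 := by
    intro n
    rw [(hEXM ν hUM.exp θ n hθ0.le).1]
    have hMo : 0 ≤ Mo ν θ := integral_nonneg fun z => (Real.exp_pos _).le
    have := pow_le_one₀ (n := n) hMo hUM.mt
    calc ENNReal.ofReal (Mo ν θ ^ n) ≤ ENNReal.ofReal 1 := ENNReal.ofReal_le_ofReal this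
      _ = 1 := ENNReal.ofReal_one
  have hc0 := hRG.c0
  have hr1 := hRG.r1
  have hckr : 0 < c * (k : ℝ) ^ (-(1 + α)) := mul_pos hc0 (Real.rpow_pos_of_pos hk0 _)
  have hfl : ENNReal.ofReal (A ^ θ / κ) *
      ENNReal.ofReal ((c * (k : ℝ) ^ (-(1 + α))) ^ θ * (2 + 1 / s)) ≤ 8⁻¹ := by
    rw [← ENNReal.ofReal_mul (by positivity)]
    have h6 : (8 : ℝ≥0∞)⁻¹ = ENNReal.ofReal (1 / 8) := by
      rw [one_div, ENNReal.ofReal_inv_of_pos (by norm_num)]
      norm_num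
    rw [h6]
    apply ENNReal.ofReal_le_ofReal
    have hk1α : 0 < (k : ℝ) ^ (1 - α) := Real.rpow_pos_of_pos hk0 _
    have h7 := ufn_num α c δ x θ s κ (TS K k) ((k : ℝ) ^ (1 - α)) hδ0 hx0 hx2 hx4 hα0 hα1 hθh
      hsdef hκdef hc0 hTS hk1α hr1
    have h8 : A * (c * (k : ℝ) ^ (-(1 + α))) =
        Real.exp 2 * (4 * (k : ℝ) ^ (1 - α) / TS K k) * c := by
      have h9 : (k : ℝ) ^ 2 * (k : ℝ) ^ (-(1 + α)) = (k : ℝ) ^ (1 - α) := by
        rw [← Real.rpow_natCast, ← Real.rpow_add hk0]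
        congr 1
        push_cast
        ring
      rw [hA, ← h9]
      field_simp
    calc A ^ θ / κ * ((c * (k : ℝ) ^ (-(1 + α))) ^ θ * (2 + 1 / s))
        = (A * (c * (k : ℝ) ^ (-(1 + α)))) ^ θ / κ * (2 + 1 / s) := by
          rw [Real.mul_rpow hA0.le hckr.le]
          ring
      _ ≤ 1 / 8 := by rw [h8]; exact h7
  have hθ1' : θ ≤ 1 := hθ1.le
  have hmain : ∀ B n, k ≤ B → ∑ j ∈ Finset.range n,
      ∫⁻ x, NX (Pool.Agent.H99.CE.w1 K B) k false false j x ^ θ ∂(iid ν) ≤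
        ENNReal.ofReal (2 * (A ^ θ / κ)) := by
    intro B n hkB
    have h := hUMO K ν k B (fun D => ENNReal.ofReal (gl α c k D)) θ
      (ENNReal.ofReal (A ^ θ / κ))
      (ENNReal.ofReal ((c * (k : ℝ) ^ (-(1 + α))) ^ θ * (2 + 1 / s)))
      hk1 hkB hθ0 hθ1' hl1 hf hl3 hex hfl n
    rwa [ENNReal.ofReal_mul (by norm_num), ENNReal.ofReal_ofNat]
  exact hUCR K hRG.K0 ν k θ (2 * (A ^ θ / κ)) hk1 hθ0 hθ1' (by positivity) hmain hex

end Pool.Agent.H98.SLN
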