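import Pool.Agent.H98.SLN.Targets

set_option autoImplicit false

open MeasureTheory ProbabilityTheory Filter Topology
open scoped ENNReal
open Pool.Agent.H95 Pool.Agent.H95.Cop
open Pool.Agent.H55.CG (pz VV Mo)
open Pool.Agent.H98.CE (pc WB HK OBJ)
open Pool.Agent.H96.Cop (ex pk Wn chargeLaw)
open Pool.Agent.H99.CE (NX)

namespace Pool.Agent.H98.SLN

lemma upa_cells : Tendsto (fun lam : ℝ => ⌈1 / lam ^ 2⌉₊) (𝓝[>] (0 : ℝ)) atTop := by
  have h1 : Tendsto (fun lam : ℝ => 1 / lam ^ 2) (𝓝[>] (0 : ℝ)) atTop := by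
    have h2 : Tendsto (fun lam : ℝ => lam ^ 2) (𝓝[>] (0 : ℝ)) (𝓝[>] (0 : ℝ)) := by
      rw [tendsto_nhdsWithin_iff]
      refine ⟨?_, ?_⟩
      · have : Tendsto (fun lam : ℝ => lam ^ 2) (𝓝 (0 : ℝ)) (𝓝 ((0 : ℝ) ^ 2)) :=
          (continuous_pow 2).tendsto 0
        rw [zero_pow two_ne_zero] at this
        exact this.mono_left nhdsWithin_le_nhds
      · filter_upwards [self_mem_nhdsWithin] with lam hlam
        have hlam1 : 0 < lam := hlam
        have : 0 < lam ^ 2 := by positivity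
        exact this
    have h3 := tendsto_inv_nhdsGT_zero.comp h2
    refine h3.congr (fun lam => ?_)
    simp only [Function.comp, one_div]
  exact tendsto_nat_ceil_atTop.comp h1

theorem pf_UPA (hKRA : T_KRA) (hUMM : T_UMM) (hUFN : T_UFN) (hMOH : T_MOH)
    (hNEG : Pool.Agent.H99.CE.T_NEG) : T_UPA := by
  obtain ⟨δ3, hδ3, hum⟩ := hUMM
  obtain ⟨δ2, hδ2, hufn⟩ := hUFN
  refine ⟨1 - min (min δ2 δ3) (1 / 2 ^ 20), by
    have : 0 < min (min δ2 δ3) (1 / 2 ^ 20 : ℝ) := by positivity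
    linarith, ?_⟩
  intro α hα hα1 K hK0 cK hcK hK μ _ hexp hmean hvar
  obtain ⟨lam0, hlam0, humm⟩ := hum μ hexp hmean hvar
  set δ : ℝ := 1 - α with hδdef
  have hδ0 : 0 < δ := by rw [hδdef]; linarith
  have hδm : δ < min (min δ2 δ3) (1 / 2 ^ 20) := by rw [hδdef]; linarith
  have hδlt2 : δ < δ2 := hδm.trans_le ((min_le_left _ _).trans (min_le_left _ _))
  have hδlt3 : δ < δ3 := hδm.trans_le ((min_le_left _ _).trans (min_le_right _ _))
  have hδlt4 : δ < 1 / 2 ^ 20 := hδm.trans_le (min_le_right _ _)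
  have e1 := upa_cells.eventually (hKRA α (by linarith) hα1 K hK0 cK hcK hK)
  have e5 : ∀ᶠ lam in 𝓝[>] (0 : ℝ), lam < min lam0 (δ ^ 2) :=
    mem_nhdsWithin_of_mem_nhds (gt_mem_nhds (lt_min hlam0 (by positivity)))
  filter_upwards [e1, e5, self_mem_nhdsWithin] with lam g1 g5 hlam
  have h0 : 0 < lam := hlam
  have hl0 : lam < lam0 := g5.trans_le (min_le_left _ _)
  have hlamδ : lam ≤ δ ^ 2 := (g5.trans_le (min_le_right _ _)).le
  set l : ℕ := ⌈1 / lam ^ 2⌉₊ with hl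
  obtain ⟨ρ, τ, hUM⟩ := humm lam δ α h0 hl0 hδ0 hδlt3 (by rw [hδdef]; linarith) hα1.le hlamδ
  set h : ℝ := (3 / 4 + 70 * δ ^ (1 / 4 : ℝ)) * lam with hh
  have hδq : 0 ≤ δ ^ (1 / 4 : ℝ) := Real.rpow_nonneg hδ0.le _
  have hhpos : 0 ≤ h := by positivity
  obtain ⟨C, hC, hbd⟩ := hufn K α cK δ l _ (chargeLaw μ lam h) ρ τ hδlt2 g1 hUM
  have h1α : 0 < 1 + α := by
    have : δ < 1 / 2 := hδlt4.trans (by norm_num)
    linarith
  have htu : 0 < tu α δ := by
    unfold tu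
    positivity
  have hcrit : criticalCurve K μ lam ≤ h := by
    unfold criticalCurve
    apply Real.sSup_le
    · rintro h' ⟨hh0, f, hf0, hfe⟩
      by_contra hcon
      push Not at hcon
      have hbd' : ∀ N : ℕ, ∫⁻ x, Wn K N x ^ tu α δ ∂(iid (chargeLaw μ lam h')) ≤
          ENNReal.ofReal C := fun N =>
        (hMOH K μ lam h h' (tu α δ) h0.le hcon.le htu.le N).trans (hbd N)
      have := hNEG K μ hexp lam h' (tu α δ) C htu hC hbd' f hfe
      linarith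
    · exact hhpos
  rw [div_le_iff₀ h0]
  exact hcrit

end Pool.Agent.H98.SLN
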