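import Pool.Agent.H98.CE.All
import Pool.Agent.H98.CEU.All
import Pool.Agent.H98.SLN.Targets
import Pool.Agent.H98.SLN.Fin
import Pool.Agent.H13.SLN.RID
import Pool.Agent.H18.SLN.EXQ
import Pool.Agent.H18.SLN.VAR
import Pool.Agent.H19.SLN.FOU
import Pool.Agent.H19.SLN.LWB
import Pool.Agent.H25.SLN.LCM
import Pool.Agent.H25.SLN.UMM
import Pool.Agent.H35.SLN.MOQ
import Pool.Agent.H36.SLN.MSL
import Pool.Agent.H36.SLN.TLQ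
import Pool.Agent.H37.SLN.W1D
import Pool.Agent.H46.SLN.DEN
import Pool.Agent.H53.SLN.PCJ
import Pool.Agent.H57.SLN.KRB
import Pool.Agent.H59.SLN.LWA
import Pool.Agent.H59.SLN.MOH
import Pool.Agent.H59.SLN.UQB
import Pool.Agent.H61.SLN.KRA
import Pool.Agent.H61.SLN.UPB
import Pool.Agent.H64.SLN.CMT
import Pool.Agent.H64.SLN.WIN
import Pool.Agent.H67.SLN.UUP
import Pool.Agent.H70.SLN.ULK
import Pool.Agent.H73.SLN.MAS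
import Pool.Agent.H75.SLN.SUR
import Pool.Agent.H78.SLN.OB1
import Pool.Agent.H78.SLN.UMO
import Pool.Agent.H85.SLN.LFN
import Pool.Agent.H85.SLN.YGD
import Pool.Agent.H86.SLN.BD1
import Pool.Agent.H86.SLN.HKR
import Pool.Agent.H86.SLN.USB
import Pool.Agent.H86.SLN.USP
import Pool.Agent.H88.SLN.JEN
import Pool.Agent.H88.SLN.UTX
import Pool.Agent.H89.SLN.MCM
import Pool.Agent.H90.SLN.LCB
import Pool.Agent.H90.SLN.SHR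
import Pool.Agent.H91.SLN.MU1
import Pool.Agent.H91.SLN.UDC
import Pool.Agent.H98.SLN.INR
import Pool.Agent.H98.SLN.UCR
import Pool.Agent.H98.SLN.UFN
import Pool.Agent.H98.SLN.ULM
import Pool.Agent.H98.SLN.UPA

/-!
# The slope of the copolymer critical curve near `α = 1`: assembly (helper98)
-/

set_option autoImplicit false

open MeasureTheory ProbabilityTheory Filter Topology

namespace Pool.Agent.H98.SLN

theorem c_RID : T_RID :=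
  Pool.Agent.H13.SLN.pf_RID

theorem c_WIN : T_WIN :=
  Pool.Agent.H64.SLN.pf_WIN

theorem c_UUP : T_UUP :=
  Pool.Agent.H67.SLN.pf_UUP

theorem c_TLQ : T_TLQ :=
  Pool.Agent.H36.SLN.pf_TLQ

theorem c_HKR : T_HKR :=
  Pool.Agent.H86.SLN.pf_HKR c_UUP c_TLQ

theorem c_MAS : T_MAS :=
  Pool.Agent.H73.SLN.pf_MAS c_RID c_UUP c_TLQ

theorem c_UQB : T_UQB :=
  Pool.Agent.H59.SLN.pf_UQB

theorem c_LCB : T_LCB :=
  Pool.Agent.H90.SLN.pf_LCB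

theorem c_JEN : T_JEN :=
  Pool.Agent.H88.SLN.pf_JEN c_UQB c_LCB

theorem c_PCJ : T_PCJ :=
  Pool.Agent.H53.SLN.pf_PCJ c_UQB c_JEN

theorem c_INR : T_INR :=
  Pool.Agent.H98.SLN.pf_INR

theorem c_VAR : T_VAR :=
  Pool.Agent.H18.SLN.pf_VAR c_UQB c_INR

theorem c_MSL : T_MSL :=
  Pool.Agent.H36.SLN.pf_MSL c_UQB

theorem c_FOU : T_FOU :=
  Pool.Agent.H19.SLN.pf_FOU

theorem c_LCM : T_LCM :=
  Pool.Agent.H25.SLN.pf_LCM c_LCB c_FOU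

theorem c_YGD : T_YGD :=
  Pool.Agent.H85.SLN.pf_YGD c_MAS c_TLQ c_UQB c_VAR c_MSL c_FOU c_LCM

theorem c_CMT : T_CMT :=
  Pool.Agent.H64.SLN.pf_CMT

theorem c_W1D : T_W1D :=
  Pool.Agent.H37.SLN.pf_W1D Pool.Agent.H98.CE.c_PCB c_UQB c_TLQ c_HKR c_MAS c_PCJ

theorem c_EXQ : T_EXQ :=
  Pool.Agent.H18.SLN.pf_EXQ

theorem c_SUR : T_SUR :=
  Pool.Agent.H75.SLN.pf_SUR

theorem c_SHR : T_SHR :=
  Pool.Agent.H90.SLN.pf_SHR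

theorem c_BD1 : T_BD1 :=
  Pool.Agent.H86.SLN.pf_BD1 c_UQB c_TLQ c_YGD c_CMT

theorem c_DEN : T_DEN :=
  Pool.Agent.H46.SLN.pf_DEN c_EXQ c_SUR c_SHR c_BD1 c_W1D

theorem c_MU1 : T_MU1 :=
  Pool.Agent.H91.SLN.pf_MU1 c_EXQ

theorem c_OB1 : T_OB1 :=
  Pool.Agent.H78.SLN.pf_OB1 c_W1D c_DEN c_MU1

theorem c_LFN : T_LFN :=
  Pool.Agent.H85.SLN.pf_LFN c_OB1 c_HKR Pool.Agent.H98.CE.c_CHF Pool.Agent.H98.CE.c_AS2

theorem c_MOQ : T_MOQ :=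
  Pool.Agent.H35.SLN.pf_MOQ

theorem c_MCM : T_MCM :=
  Pool.Agent.H89.SLN.pf_MCM c_MOQ

theorem c_UMM : T_UMM :=
  Pool.Agent.H25.SLN.pf_UMM c_MOQ

theorem c_UDC : T_UDC :=
  Pool.Agent.H91.SLN.pf_UDC Pool.Agent.H98.CEU.c_PFD

theorem c_UMO : T_UMO :=
  Pool.Agent.H78.SLN.pf_UMO Pool.Agent.H98.CEU.c_PFM c_UDC

theorem c_UCR : T_UCR :=
  Pool.Agent.H98.SLN.pf_UCR Pool.Agent.H98.CEU.c_PFM Pool.Agent.H98.CEU.c_WPF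

theorem c_EXM : T_EXM :=
  Pool.Agent.H98.SLN.pf_EXM

theorem c_HOL : T_HOL :=
  Pool.Agent.H98.SLN.pf_HOL c_EXM

theorem c_UTX : T_UTX :=
  Pool.Agent.H88.SLN.pf_UTX Pool.Agent.H98.CEU.c_PFM c_EXM

theorem c_USP : T_USP :=
  Pool.Agent.H86.SLN.pf_USP c_TLQ

theorem c_USB : T_USB :=
  Pool.Agent.H86.SLN.pf_USB c_RID c_WIN c_TLQ c_USP

theorem c_ULM : T_ULM :=
  Pool.Agent.H98.SLN.pf_ULM c_HOL c_UTX c_USB c_TLQ Pool.Agent.H98.CEU.c_PFM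

theorem c_ULK : T_ULK :=
  Pool.Agent.H70.SLN.pf_ULK

theorem c_UFN : T_UFN :=
  Pool.Agent.H98.SLN.pf_UFN c_UMO c_UCR c_EXM c_ULM c_ULK c_TLQ

theorem c_MOH : T_MOH :=
  Pool.Agent.H59.SLN.pf_MOH

theorem c_KRA : T_KRA :=
  Pool.Agent.H61.SLN.pf_KRA

theorem c_KRB : T_KRB :=
  Pool.Agent.H57.SLN.pf_KRB

theorem c_LWA : T_LWA :=
  Pool.Agent.H59.SLN.pf_LWA c_KRA c_MCM c_LFN c_HKR c_TLQ Pool.Agent.H98.CE.c_END

theorem c_LWB : T_LWB :=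
  Pool.Agent.H19.SLN.pf_LWB c_KRB c_MCM c_LFN c_HKR c_TLQ Pool.Agent.H98.CE.c_END

theorem c_UPA : T_UPA :=
  Pool.Agent.H98.SLN.pf_UPA c_KRA c_UMM c_UFN c_MOH Pool.Agent.H98.CEU.c_NEG

theorem c_UPB : T_UPB :=
  Pool.Agent.H61.SLN.pf_UPB c_KRB c_UMM c_UFN c_MOH Pool.Agent.H98.CEU.c_NEG

end Pool.Agent.H98.SLN
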