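import Pool.Agent.H98.CE.Defs
import Pool.Agent.H99.CE.Defs

/-!
# The slope of the copolymer critical curve near `α = 1`: definitions (helper98)

Problem `MP_65efe8_pr`. The charges are a sequence `x` (`x i = -2 λ (ω i + h)`), cells have
`ℓ = ⌈1 / λ²⌉` sites. `δ` is `1 - α` if `α < 1` and `1 / log ℓ` if `α = 1`; it is small. `pc`, `WB`,
`lk`, `HK` are those of `Pool.Agent.H98.CE`, `w0`, `w1`, `NX` those of `Pool.Agent.H99.CE`.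
-/

set_option autoImplicit false

open MeasureTheory ProbabilityTheory Filter Topology
open Pool.Agent.H95 Pool.Agent.H95.Cop

namespace Pool.Agent.H98.SLN

/-! ## The inter-arrival law on the scale of the cells -/

/-- truncated mean -/
noncomputable def TS (K : PMF ℕ) (ℓ : ℕ) : ℝ := ∑ j ∈ Finset.range ℓ, tailK K (j + 1)

/-- the inter-arrival law on the scale `ℓ`; excursions of at most `q` sites are short -/
structure RG (K : PMF ℕ) (α c δ : ℝ) (ℓ q : ℕ) : Prop where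
  K0 : K 0 = 0
  δ0 : 0 < δ
  δ1 : δ ≤ 1 / 2 ^ 20
  α0 : 1 - δ ≤ α
  α1 : α ≤ 1
  c0 : 0 < c
  q1 : 1 ≤ q
  q2 : Real.sqrt δ / 2 * ℓ ≤ q
  q3 : (q : ℝ) ≤ Real.sqrt δ * ℓ
  up : ∀ n : ℕ, q ≤ n → kk K n ≤ 2 * c * (n : ℝ) ^ (-(1 + α))
  lo : ∀ n : ℕ, q ≤ n → c / 2 * (n : ℝ) ^ (-(1 + α)) ≤ kk K n
  s2 : ∑ n ∈ Finset.range (ℓ + 1), (n : ℝ) ^ 2 * kk K n ≤ 4 * c * (ℓ : ℝ) ^ (2 - α)
  r1 : c * (ℓ : ℝ) ^ (1 - α) ≤ 4 * δ * TS K ℓ
  r2 : δ * TS K ℓ ≤ 4 * c * (ℓ : ℝ) ^ (1 - α)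

/-! ## Lower half: stretches with short excursions -/

/-- short excursions -/
noncomputable def kq (K : PMF ℕ) (q n : ℕ) : ℝ := if n ≤ q then kk K n else 0

/-- renewal mass with short excursions -/
noncomputable def uq (K : PMF ℕ) (q n : ℕ) : ℝ := uu (kq K q) n

/-- `(1 + e^y) / 2 = exp (y / 2 + lc y)` -/
noncomputable def lc (y : ℝ) : ℝ := Real.log (Real.cosh (y / 2))

/-- sum over the renewal paths of `n` sites (short excursions) beginning at the site `y` of their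
weight times the sum of `lc` over the excursions -/
noncomputable def Sq (K : PMF ℕ) (q : ℕ) (x : ℕ → ℝ) : ℕ → ℕ → ℝ
  | 0, _ => 0
  | n + 1, y => ∑ j : Fin (n + 1), kq K q (j + 1) *
      (lc (H x y (y + (j + 1))) * uq K q (n - j) + Sq K q x (n - j) (y + (j + 1)))
termination_by n _ => n

/-- the mean of `Sq` -/
noncomputable def mS (K : PMF ℕ) (q : ℕ) (ν : Measure ℝ) : ℕ → ℝ
  | 0 => 0
  | n + 1 => ∑ j : Fin (n + 1), kq K q (j + 1) *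
      ((∫ x : ℕ → ℝ, lc (H x 0 (j + 1)) ∂(iid ν)) * uq K q (n - j) + mS K q ν (n - j))
termination_by n => n

/-- mass of the paths with short excursions from the cell `a` to the cell `b` -/
noncomputable def MM (K : PMF ℕ) (ℓ q a b : ℕ) : ℝ :=
  ∑ y ∈ Finset.Ico (a * ℓ) ((a + 1) * ℓ), ∑ z ∈ Finset.Ico (b * ℓ) ((b + 1) * ℓ), uq K q (z - y)

/-- mean exponent of these paths -/
noncomputable def YY (K : PMF ℕ) (ℓ q : ℕ) (x : ℕ → ℝ) (a b : ℕ) : ℝ :=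
  (∑ y ∈ Finset.Ico (a * ℓ) ((a + 1) * ℓ), ∑ z ∈ Finset.Ico (b * ℓ) ((b + 1) * ℓ),
    (uq K q (z - y) * (H x y z / 2) + Sq K q x (z - y) y)) / MM K ℓ q a b

/-- the typical exponent on the cells `a, ..., b` -/
noncomputable def cD (ℓ : ℕ) (x : ℕ → ℝ) (a b : ℕ) : ℝ :=
  H x (a * ℓ) ((b + 1) * ℓ) / 2 + ((b : ℝ) + 1 - a) / 2

/-- exponential moments of the exponent of one cell -/
noncomputable def AA (ν : Measure ℝ) (ℓ : ℕ) (u : ℝ) : ℝ :=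
  Real.exp (u / 2) * Pool.Agent.H55.CG.Mo ν (u / 2) ^ ℓ

/-- the constant of the fourth moments, `m1, m2, m4` moments of the charges -/
noncomputable def B4 (ν : Measure ℝ) (q : ℕ) : ℝ :=
  128 * (∫ z, z ^ 4 ∂ν) + 24 * q * (∫ z, z ^ 2 ∂ν) ^ 2 + 8 * (q : ℝ) ^ 3 * (∫ z, z ∂ν) ^ 4

/-- pairs of cells at distance between `d0` and `d1` (numbers of cells, ends included) -/
def PP (n d0 d1 : ℕ) : Finset (ℕ × ℕ) :=
  (Finset.range n ×ˢ Finset.range n).filter fun p => p.1 + d0 ≤ p.2 + 1 ∧ p.2 + 1 ≤ p.1 + d1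

/-- good pairs -/
def gd (K : PMF ℕ) (ℓ q : ℕ) (β : ℝ) (x : ℕ → ℝ) (p : ℕ × ℕ) : Prop :=
  cD ℓ x p.1 p.2 - 60 ≤ YY K ℓ q x p.1 p.2 ∧ β + 63 ≤ cD ℓ x p.1 p.2

open Classical in
/-- the functional of a box -/
noncomputable def w1 (K : PMF ℕ) (ℓ q n d0 d1 : ℕ) (β : ℝ) (x : ℕ → ℝ) : ℝ :=
  ∑ p ∈ PP n d0 d1, if gd K ℓ q β x p then Real.exp (cD ℓ x p.1 p.2 - 63) else 0

open Classical in
/-- its label -/
noncomputable def l1 (K : PMF ℕ) (ℓ q n d0 d1 : ℕ) (β : ℝ) (x : ℕ → ℝ) : ℕ :=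
  if ∃ p ∈ PP n d0 d1, gd K ℓ q β x p then 1 else 0

/-- number of cells in exactly one of the intervals `a..b`, `a'..b'` -/
def sd (a b a' b' : ℕ) : ℕ := (symmDiff (Finset.Ico a (b + 1)) (Finset.Ico a' (b' + 1))).card

/-- the conditions on the law of the charges, lower half -/
structure MC (ν : Measure ℝ) (ℓ N : ℕ) (γ : ℝ) : Prop where
  prob : IsProbabilityMeasure ν
  exp : ∀ t : ℝ, Integrable (fun z => Real.exp (t * z)) ν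
  a1 : AA ν ℓ γ ≤ 1
  a2 : Real.exp (-1 / (120 * N)) ≤ AA ν ℓ γ
  a3 : AA ν ℓ (γ / 2) ≤ Real.exp (-1 / 50) * AA ν ℓ γ
  a4 : AA ν ℓ (2 * γ) ≤ Real.exp 1
  t1 : ℓ * |∫ z, z ∂(ν.tilted fun z => γ / 2 * z)| ≤ 4
  t2 : |ℓ * (∫ z, z ^ 2 ∂(ν.tilted fun z => γ / 2 * z)) - 4| ≤ 1 / (960 * N)
  t4 : ℓ * (∫ z, z ^ 4 ∂(ν.tilted fun z => γ / 2 * z)) ≤ 1 / (960 * N)

/-! ## Upper half -/

/-- neutral kernel -/
noncomputable def kt (K : PMF ℕ) (k : ℕ) (τ : ℝ) (m : ℕ) : ℝ :=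
  if m ≤ k then kk K m * (1 + (τ * m) ^ 2) else 0

/-- neutral mass between cells -/
noncomputable def VB (K : PMF ℕ) (k : ℕ) (τ : ℝ) (b : ℕ) : ℝ :=
  ∑ e ∈ Finset.range k, ∑ r ∈ Finset.range k,
    if e ≤ b * k + r then uu (kt K k τ) (b * k + r - e) else 0

/-- links over `D` cells -/
noncomputable def gl (α c : ℝ) (k D : ℕ) : ℝ := c * ((k : ℝ) * ((max (D - 1) 1 : ℕ) : ℝ)) ^ (-(1 + α))

/-- the conditions on the law of the charges, upper half -/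
structure UM (ν : Measure ℝ) (k : ℕ) (θ ρ τ δ κ : ℝ) : Prop where
  prob : IsProbabilityMeasure ν
  exp : ∀ t : ℝ, Integrable (fun z => Real.exp (t * z)) ν
  θ0 : 0 < θ
  θ1 : θ < 1
  ρ0 : 0 < ρ
  τ0 : 0 ≤ τ
  τk : τ * k ≤ 1
  κ0 : 0 < κ
  mn : Pool.Agent.H55.CG.Mo ν (-(1 - θ) / 2) ≤ ρ * Real.exp τ
  mp : Pool.Agent.H55.CG.Mo ν ((1 + θ) / 2) ≤ ρ * Real.exp (-τ)
  mt : Pool.Agent.H55.CG.Mo ν θ ≤ 1
  dk : (ρ ^ k * Real.exp (64 * δ)) ^ θ *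
    (Pool.Agent.H55.CG.Mo ν (θ / 2) ^ k) ^ (1 - θ) ≤ Real.exp (-κ)

end Pool.Agent.H98.SLN
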