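import Pool.Agent.H98.SLN.Targets

set_option autoImplicit false

open MeasureTheory ProbabilityTheory Filter Topology
open scoped ENNReal
open Pool.Agent.H95 Pool.Agent.H95.Cop
open Pool.Agent.H55.CG (pz VV Mo)
open Pool.Agent.H98.CE (pc WB HK OBJ)
open Pool.Agent.H96.Cop (ex pk Wn chargeLaw)
open Pool.Agent.H99.CE (NX)

namespace Pool.Agent.H98.SLN

lemma ulk_gap {s : ℝ} (hs : 0 < s) (n : ℕ) :
    ∑ D ∈ Finset.Icc 1 n, ((max (D - 1) 1 : ℕ) : ℝ) ^ (-(1 + s)) ≤ 2 + 1 / s := by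
  have hnn : ∀ D : ℕ, 0 ≤ ((max (D - 1) 1 : ℕ) : ℝ) ^ (-(1 + s)) := fun D =>
    Real.rpow_nonneg (Nat.cast_nonneg _) _
  have hind : ∀ n : ℕ, ∑ D ∈ Finset.Icc 1 (n + 2), ((max (D - 1) 1 : ℕ) : ℝ) ^ (-(1 + s)) =
      2 + ∑ j ∈ Finset.Ico 1 (n + 1), ((j : ℝ) + 1) ^ (-(1 + s)) := by
    intro n
    induction n with
    | zero =>
      have h1 : Finset.Icc 1 (0 + 2) = {1, 2} := by decide
      rw [h1, Finset.sum_pair (by norm_num)]
      simp
      norm_num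
    | succ n ih =>
      rw [show n + 1 + 2 = (n + 2) + 1 by ring, Finset.sum_Icc_succ_top (by omega), ih,
        Finset.sum_Ico_succ_top (by omega : 1 ≤ n + 1)]
      have h2 : (max (n + 2 + 1 - 1) 1 : ℕ) = n + 1 + 1 := by omega
      rw [h2]
      push_cast
      ring
  have h3 := Pool.Agent.H96.Cop.sum_pow_up hs (k := 1) (N := n + 1) le_rfl (by omega)
  have h4 : (((1 : ℕ) : ℝ) ^ (-s) - ((n + 1 : ℕ) : ℝ) ^ (-s)) / s ≤ 1 / s := by
    apply div_le_div_of_nonneg_right _ hs.le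
    rw [Nat.cast_one, Real.one_rpow]
    have : 0 ≤ ((n + 1 : ℕ) : ℝ) ^ (-s) := Real.rpow_nonneg (Nat.cast_nonneg _) _
    linarith
  have h5 : ∑ D ∈ Finset.Icc 1 n, ((max (D - 1) 1 : ℕ) : ℝ) ^ (-(1 + s)) ≤
      ∑ D ∈ Finset.Icc 1 (n + 2), ((max (D - 1) 1 : ℕ) : ℝ) ^ (-(1 + s)) :=
    Finset.sum_le_sum_of_subset_of_nonneg (Finset.Icc_subset_Icc le_rfl (by omega))
      (fun D _ _ => hnn D)
  rw [hind] at h5
  linarith

theorem pf_ULK : T_ULK := by
  intro K α c δ k q hRG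
  have hδ := hRG.δ1
  have hα0 := hRG.α0
  have hα1 := hRG.α1
  have hc0 := hRG.c0
  have hδ0 := hRG.δ0
  have hq1 := hRG.q1
  have hq3 := hRG.q3
  have hsq : Real.sqrt δ ≤ 1 := by
    rw [Real.sqrt_le_left (by norm_num), one_pow]
    exact hδ.trans (by norm_num)
  have hqk' : (q : ℝ) ≤ k := by
    calc (q : ℝ) ≤ Real.sqrt δ * k := hq3
      _ ≤ 1 * k := mul_le_mul_of_nonneg_right hsq (Nat.cast_nonneg _)
      _ = k := one_mul _
  have hqk : q ≤ k := by exact_mod_cast hqk'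
  have hk1 : 1 ≤ k := hq1.trans hqk
  have hk0 : (0 : ℝ) < k := by exact_mod_cast (by omega : 0 < k)
  have h1α : 0 < 1 + α := by
    have : δ ≤ 1 / 2 := hδ.trans (by norm_num)
    linarith
  constructor
  · intro D m hD hkm hDm _
    have hup := hRG.up m (by omega)
    have hm : k * max (D - 1) 1 ≤ m := by
      rcases le_total (D - 1) 1 with h | h
      · rw [max_eq_right h]; omega
      · rw [max_eq_left h, mul_comm]; exact hDm.le
    have hm' : (k : ℝ) * ((max (D - 1) 1 : ℕ) : ℝ) ≤ m := by exact_mod_cast hm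
    have hp0 : 0 < (k : ℝ) * ((max (D - 1) 1 : ℕ) : ℝ) := by
      apply mul_pos hk0
      have : 0 < max (D - 1) 1 := lt_of_lt_of_le Nat.zero_lt_one (le_max_right _ _)
      exact_mod_cast this
    have h1 : (m : ℝ) ^ (-(1 + α)) ≤ ((k : ℝ) * ((max (D - 1) 1 : ℕ) : ℝ)) ^ (-(1 + α)) :=
      Real.rpow_le_rpow_of_nonpos hp0 hm' (by linarith)
    have h2 : pk K m * 2⁻¹ = ENNReal.ofReal (kk K m * (1 / 2)) := by
      unfold Pool.Agent.H96.Cop.pk
      rw [ENNReal.ofReal_mul (kk_nonneg K m)]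
      congr 1
      rw [one_div, ENNReal.ofReal_inv_of_pos (by norm_num), ENNReal.ofReal_ofNat]
    rw [h2]
    apply ENNReal.ofReal_le_ofReal
    unfold gl
    have h3 := mul_le_mul_of_nonneg_left h1 hc0.le
    linarith
  · intro θ s hθ hs hθs n
    have hck : 0 ≤ c * (k : ℝ) ^ (-(1 + α)) := mul_nonneg hc0.le (Real.rpow_nonneg hk0.le _)
    have h1 : ∀ D : ℕ, ENNReal.ofReal (gl α c k D) ^ θ =
        ENNReal.ofReal ((c * (k : ℝ) ^ (-(1 + α))) ^ θ *
          ((max (D - 1) 1 : ℕ) : ℝ) ^ (-(1 + s))) := by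
      intro D
      have hm0 : (0 : ℝ) ≤ ((max (D - 1) 1 : ℕ) : ℝ) := Nat.cast_nonneg _
      have hgl : gl α c k D = (c * (k : ℝ) ^ (-(1 + α))) *
          ((max (D - 1) 1 : ℕ) : ℝ) ^ (-(1 + α)) := by
        unfold gl
        rw [Real.mul_rpow hk0.le hm0, mul_assoc]
      have hgl0 : 0 ≤ gl α c k D := by
        rw [hgl]; exact mul_nonneg hck (Real.rpow_nonneg hm0 _)
      rw [ENNReal.ofReal_rpow_of_nonneg hgl0 hθ.le, hgl,
        Real.mul_rpow hck (Real.rpow_nonneg hm0 _), ← Real.rpow_mul hm0]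
      have h2 : -(1 + α) * θ = -(1 + s) := by rw [neg_mul, hθs]
      rw [h2]
    simp_rw [h1]
    rw [← ENNReal.ofReal_sum_of_nonneg, ← Finset.mul_sum]
    · apply ENNReal.ofReal_le_ofReal
      exact mul_le_mul_of_nonneg_left (ulk_gap hs n) (Real.rpow_nonneg hck _)
    · intro D _
      exact mul_nonneg (Real.rpow_nonneg hck _) (Real.rpow_nonneg (Nat.cast_nonneg _) _)

end Pool.Agent.H98.SLN
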